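import Mathlib

/-!
Counting integer points in Euclidean balls.
-/

set_option autoImplicit false

namespace Pool.Agent.H208F

open Finset MeasureTheory
open scoped Pointwise

/-- integer points in the ball of radius `r` -/
noncomputable def IB (d : ℕ) (r : ℝ) : Finset (Fin d → ℤ) :=
  (Fintype.piFinset fun _ => Finset.Icc (-⌈r⌉) ⌈r⌉).filter (fun x => ∑ j, ((x j : ℤ) : ℝ) ^ 2 ≤ r ^ 2)

theorem mem_IB {d : ℕ} {r : ℝ} (hr : 0 ≤ r) (x : Fin d → ℤ) :
    x ∈ IB d r ↔ ∑ j, ((x j : ℤ) : ℝ) ^ 2 ≤ r ^ 2 := by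
  unfold IB
  rw [mem_filter, Fintype.mem_piFinset]
  constructor
  · exact fun h => h.2
  · intro h
    refine ⟨fun j => ?_, h⟩
    have h1 : ((x j : ℤ) : ℝ) ^ 2 ≤ r ^ 2 :=
      (single_le_sum (f := fun j => ((x j : ℤ) : ℝ) ^ 2) (fun i _ => sq_nonneg _)
        (mem_univ j)).trans h
    have h2 := abs_le_of_sq_le_sq' h1 hr
    rw [mem_Icc]
    have h3 : r ≤ (⌈r⌉ : ℝ) := Int.le_ceil r
    constructor
    · have : ((-⌈r⌉ : ℤ) : ℝ) ≤ x j := by push_cast; linarith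
      exact_mod_cast this
    · have : ((x j : ℤ) : ℝ) ≤ (⌈r⌉ : ℤ) := by linarith
      exact_mod_cast this

theorem mink {d : ℕ} (a b : Fin d → ℝ) {α β : ℝ} (hα : 0 ≤ α) (hβ : 0 ≤ β)
    (ha : ∑ j, a j ^ 2 ≤ α ^ 2) (hb : ∑ j, b j ^ 2 ≤ β ^ 2) :
    ∑ j, (a j + b j) ^ 2 ≤ (α + β) ^ 2 := by
  have h1 : (∑ j, a j * b j) ^ 2 ≤ (∑ j, a j ^ 2) * ∑ j, b j ^ 2 :=
    sum_mul_sq_le_sq_mul_sq univ a b
  have h2 : (∑ j, a j * b j) ^ 2 ≤ (α * β) ^ 2 := by
    refine h1.trans ?_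
    rw [mul_pow]
    exact mul_le_mul ha hb (sum_nonneg fun j _ => sq_nonneg _) (sq_nonneg _)
  have h3 : ∑ j, a j * b j ≤ α * β := (abs_le_of_sq_le_sq' h2 (by positivity)).2
  have h4 : ∑ j, (a j + b j) ^ 2 = ∑ j, a j ^ 2 + 2 * ∑ j, a j * b j + ∑ j, b j ^ 2 := by
    rw [mul_sum, ← sum_add_distrib, ← sum_add_distrib]
    refine sum_congr rfl fun j _ => ?_
    ring
  rw [h4]
  nlinarith

/-- the ball as a set -/
def SB (d : ℕ) (r : ℝ) : Set (Fin d → ℝ) := {x | ∑ j, x j ^ 2 ≤ r ^ 2}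

/-- the unit cube at `x` -/
def QB {d : ℕ} (x : Fin d → ℤ) : Set (Fin d → ℝ) :=
  Set.pi Set.univ (fun j => Set.Ico ((x j : ℤ) : ℝ) ((x j : ℤ) + 1))

theorem mem_QB {d : ℕ} (x : Fin d → ℤ) (y : Fin d → ℝ) : y ∈ QB x ↔ ∀ j, ⌊y j⌋ = x j := by
  unfold QB
  rw [Set.mem_univ_pi]
  refine forall_congr' fun j => ?_
  rw [Set.mem_Ico, Int.floor_eq_iff]

theorem vol_QB {d : ℕ} (x : Fin d → ℤ) : volume (QB x) = 1 := by
  unfold QB
  rw [Real.volume_pi_Ico]
  simp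

theorem meas_QB {d : ℕ} (x : Fin d → ℤ) : MeasurableSet (QB x) :=
  MeasurableSet.univ_pi fun _ => measurableSet_Ico

theorem vol_union {d : ℕ} (s : Finset (Fin d → ℤ)) :
    volume (⋃ x ∈ s, QB x) = (s.card : ENNReal) := by
  rw [measure_biUnion_finset _ (fun x _ => meas_QB x)]
  · rw [sum_congr rfl (fun x _ => vol_QB x)]
    simp
  · intro x _ x' _ hne
    rw [Function.onFun, Set.disjoint_left]
    intro y h1 h2
    rw [mem_QB] at h1 h2
    apply hne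
    funext j
    rw [← h1 j, ← h2 j]

theorem frac_sum {d : ℕ} {s : ℝ} (hs : (d : ℝ) ≤ s ^ 2) (y : Fin d → ℝ) :
    ∑ j, (Int.fract (y j)) ^ 2 ≤ s ^ 2 := by
  refine le_trans ?_ hs
  calc ∑ j, (Int.fract (y j)) ^ 2 ≤ ∑ _j : Fin d, (1 : ℝ) := by
        apply sum_le_sum
        intro j _
        have h1 := Int.fract_nonneg (y j)
        have h2 := (Int.fract_lt_one (y j)).le
        nlinarith
    _ = d := by simp

theorem SB_smul {d : ℕ} {r : ℝ} (hr : 0 < r) : SB d r = r • SB d 1 := by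
  ext x
  rw [Set.mem_smul_set_iff_inv_smul_mem₀ hr.ne']
  unfold SB
  simp only [Set.mem_ofPred_eq, Pi.smul_apply, smul_eq_mul, mul_pow, ← mul_sum]
  rw [one_pow, inv_pow, inv_mul_le_iff₀ (by positivity), mul_one]

theorem vol_SB {d : ℕ} {r : ℝ} (hr : 0 < r) :
    volume (SB d r) = ENNReal.ofReal (r ^ d) * volume (SB d 1) := by
  rw [SB_smul hr, Measure.addHaar_smul_of_nonneg volume hr.le, Module.finrank_fin_fun]

theorem vol_SB_one (d : ℕ) : volume (SB d 1) < ⊤ := by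
  have h : SB d 1 ⊆ Set.Icc (fun _ => (-1 : ℝ)) (fun _ => 1) := by
    intro x hx
    unfold SB at hx
    rw [Set.mem_ofPred_eq] at hx
    rw [Set.mem_Icc]
    have h1 : ∀ j, -1 ≤ x j ∧ x j ≤ 1 := by
      intro j
      have h2 : x j ^ 2 ≤ 1 ^ 2 :=
        (single_le_sum (f := fun j => x j ^ 2) (fun i _ => sq_nonneg _) (mem_univ j)).trans hx
      exact abs_le_of_sq_le_sq' h2 zero_le_one
    exact ⟨fun j => (h1 j).1, fun j => (h1 j).2⟩
  exact (measure_mono h).trans_lt isCompact_Icc.measure_lt_top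

theorem card_le_vol {d : ℕ} {r s : ℝ} (hr : 0 ≤ r) (hs0 : 0 < s) (hs : (d : ℝ) ≤ s ^ 2) :
    ((IB d r).card : ENNReal) ≤ volume (SB d (r + s)) := by
  rw [← vol_union]
  apply measure_mono
  intro y hy
  simp only [Set.mem_iUnion] at hy
  obtain ⟨x, hx, hy⟩ := hy
  rw [mem_IB hr] at hx
  rw [mem_QB] at hy
  unfold SB
  rw [Set.mem_ofPred_eq]
  have h := mink (fun j => ((x j : ℤ) : ℝ)) (fun j => Int.fract (y j)) hr hs0.le hx
    (frac_sum hs y)
  refine le_trans (le_of_eq ?_) h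
  refine sum_congr rfl fun j _ => ?_
  rw [← hy j, Int.floor_add_fract]

theorem vol_le_card {d : ℕ} {r s : ℝ} (hs0 : 0 < s) (hs : (d : ℝ) ≤ s ^ 2) (hr : s < r) :
    volume (SB d (r - s)) ≤ ((IB d r).card : ENNReal) := by
  rw [← vol_union]
  apply measure_mono
  intro y hy
  simp only [Set.mem_iUnion]
  refine ⟨fun j => ⌊y j⌋, ?_, ?_⟩
  · rw [mem_IB (by linarith)]
    unfold SB at hy
    rw [Set.mem_ofPred_eq] at hy
    have h := mink (fun j => y j) (fun j => - Int.fract (y j)) (by linarith : (0 : ℝ) ≤ r - s)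
      hs0.le hy (by simpa using frac_sum hs y)
    rw [sub_add_cancel] at h
    refine le_trans (le_of_eq ?_) h
    refine sum_congr rfl fun j _ => ?_
    have := Int.floor_add_fract (y j)
    congr 1
    linarith
  · rw [mem_QB]
    intro j
    rfl

/-- comparison of the numbers of integer points in two balls -/
theorem IB_ratio {d : ℕ} {r1 r2 s : ℝ} (hr1 : 0 ≤ r1) (hs0 : 0 < s) (hs : (d : ℝ) ≤ s ^ 2)
    (hr2 : s < r2) :
    ((IB d r1).card : ℝ) * (r2 - s) ^ d ≤ (r1 + s) ^ d * (IB d r2).card := by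
  have hc := vol_SB_one d
  set c : ℝ := (volume (SB d 1)).toReal with hcdef
  have hcof : volume (SB d 1) = ENNReal.ofReal c := (ENNReal.ofReal_toReal hc.ne).symm
  have hc0 : 0 ≤ c := ENNReal.toReal_nonneg
  have hp1 : (0 : ℝ) ≤ (r1 + s) ^ d := pow_nonneg (by linarith) _
  have h1 : ((IB d r1).card : ℝ) ≤ (r1 + s) ^ d * c := by
    have := card_le_vol hr1 hs0 hs
    rw [vol_SB (show 0 < r1 + s by linarith), hcof, ← ENNReal.ofReal_mul hp1,
      ← ENNReal.ofReal_natCast] at this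
    exact (ENNReal.ofReal_le_ofReal_iff (mul_nonneg hp1 hc0)).mp this
  have h2 : (r2 - s) ^ d * c ≤ ((IB d r2).card : ℝ) := by
    have := vol_le_card hs0 hs hr2
    have hp : (0 : ℝ) ≤ (r2 - s) ^ d := pow_nonneg (by linarith) _
    rw [vol_SB (show 0 < r2 - s by linarith), hcof, ← ENNReal.ofReal_mul hp,
      ← ENNReal.ofReal_natCast] at this
    exact (ENNReal.ofReal_le_ofReal_iff (Nat.cast_nonneg _)).mp this
  have hp : (0 : ℝ) ≤ (r2 - s) ^ d := pow_nonneg (by linarith) _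
  calc ((IB d r1).card : ℝ) * (r2 - s) ^ d ≤ ((r1 + s) ^ d * c) * (r2 - s) ^ d :=
        mul_le_mul_of_nonneg_right h1 hp
    _ = (r1 + s) ^ d * ((r2 - s) ^ d * c) := by ring
    _ ≤ _ := mul_le_mul_of_nonneg_left h2 hp1

end Pool.Agent.H208F
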