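import Pool.Agent.H208F.Fam
import Pool.Agent.H208F.Vol

/-!
Balls in `(ZMod M)^d` and the deterministic step.
-/

set_option autoImplicit false

namespace Pool.Agent.H208F

open Finset

/-- the representative of smallest absolute value -/
def vv {d M : ℕ} (z : Fin d → ZMod M) : Fin d → ℤ := fun j => (z j).valMinAbs

/-- reduction modulo `M` -/
def cc (M : ℕ) {d : ℕ} (x : Fin d → ℤ) : Fin d → ZMod M := fun j => ((x j : ℤ) : ZMod M)

theorem cc_vv {d M : ℕ} (z : Fin d → ZMod M) : cc M (vv z) = z := by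
  funext j
  exact ZMod.coe_valMinAbs (z j)

theorem vv_inj {d M : ℕ} {z z' : Fin d → ZMod M} (h : vv z = vv z') : z = z' := by
  rw [← cc_vv z, ← cc_vv z', h]

theorem vv_cc {d M : ℕ} [NeZero M] {x : Fin d → ℤ} (h : ∀ j, 2 * |x j| < M) :
    vv (cc M x) = x := by
  funext j
  unfold vv cc
  rw [ZMod.valMinAbs_spec]
  refine ⟨rfl, ?_⟩
  rw [Set.mem_Ioc]
  have h1 := h j
  have h2 := neg_abs_le (x j)
  have h3 := le_abs_self (x j)
  constructor <;> linarith

open Classical in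
/-- the ball inside a cube -/
noncomputable def XX (M d : ℕ) [NeZero M] (r : ℝ) : Finset (Fin d → ZMod M) :=
  univ.filter (fun z => (∀ j, 8 * |vv z j| < M) ∧ ∑ j, ((vv z j : ℤ) : ℝ) ^ 2 ≤ r ^ 2)

open Classical in
/-- the smaller ball -/
noncomputable def YY (M d : ℕ) [NeZero M] (ρ : ℝ) : Finset (Fin d → ZMod M) :=
  univ.filter (fun z => ∑ j, ((vv z j : ℤ) : ℝ) ^ 2 ≤ ρ ^ 2)

open Classical in
/-- the neighbourhood of the ball -/
noncomputable def ZZ (M d : ℕ) [NeZero M] (r l : ℝ) : Finset (Fin d → ZMod M) :=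
  univ.filter (fun z => ∃ y ∈ XX M d r, ∑ j, ((vv (z - y) j : ℤ) : ℝ) ^ 2 ≤ l ^ 2)

theorem XX_sub {M d : ℕ} [NeZero M] (r l : ℝ) : XX M d r ⊆ ZZ M d r l := by
  classical
  intro z hz
  unfold ZZ
  rw [mem_filter]
  refine ⟨mem_univ _, z, hz, ?_⟩
  have : ∀ j, vv (z - z) j = 0 := by
    intro j
    unfold vv
    rw [sub_self, Pi.zero_apply, ZMod.valMinAbs_zero]
  rw [sum_congr rfl (fun j _ => by rw [this j])]
  simp [sq_nonneg]

theorem YY_card {M d : ℕ} [NeZero M] {ρ : ℝ} (hρ : 0 ≤ ρ) : (YY M d ρ).card ≤ (IB d ρ).card := by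
  classical
  apply card_le_card_of_injOn vv
  · intro z hz
    unfold YY at hz
    rw [mem_coe, mem_filter] at hz
    rw [mem_coe, mem_IB hρ]
    exact hz.2
  · intro z _ z' _ h
    exact vv_inj h

theorem ZZ_card {M d : ℕ} [NeZero M] {r l : ℝ} (hr : 0 ≤ r) (hl : 0 ≤ l) :
    (ZZ M d r l).card ≤ (IB d (r + l)).card := by
  classical
  have h : ∀ z ∈ ZZ M d r l, ∃ v ∈ IB d (r + l), cc M v = z := by
    intro z hz
    unfold ZZ at hz
    rw [mem_filter] at hz
    obtain ⟨y, hy, hzy⟩ := hz.2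
    unfold XX at hy
    rw [mem_filter] at hy
    refine ⟨fun j => vv y j + vv (z - y) j, ?_, ?_⟩
    · rw [mem_IB (by linarith)]
      have := mink (fun j => ((vv y j : ℤ) : ℝ)) (fun j => ((vv (z - y) j : ℤ) : ℝ)) hr hl
        hy.2.2 hzy
      push_cast
      exact this
    · funext j
      have h1 := congrFun (cc_vv y) j
      have h2 := congrFun (cc_vv (z - y)) j
      unfold cc at h1 h2 ⊢
      push_cast
      rw [h1, h2]
      simp
  choose! f hf1 hf2 using h
  apply card_le_card_of_injOn f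
  · intro z hz
    exact hf1 z hz
  · intro z hz z' hz' h
    rw [← hf2 z hz, ← hf2 z' hz', h]

theorem XX_ge {M d : ℕ} [NeZero M] {r : ℝ} (hr : 0 ≤ r) :
    ((IB d r).filter (fun x => ∀ j, 8 * |x j| < (M : ℤ))).card ≤ (XX M d r).card := by
  classical
  have key : ∀ x ∈ (IB d r).filter (fun x => ∀ j, 8 * |x j| < (M : ℤ)), vv (cc M x) = x := by
    intro x hx
    rw [mem_filter] at hx
    apply vv_cc
    intro j
    have h1 := hx.2 j
    have h2 := abs_nonneg (x j)
    linarith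
  apply card_le_card_of_injOn (cc M)
  · intro x hx
    have hk := key x hx
    rw [mem_coe, mem_filter, mem_IB hr] at hx
    unfold XX
    rw [mem_coe, mem_filter, hk]
    exact ⟨mem_univ _, hx.2, hx.1⟩
  · intro x hx x' hx' h
    rw [← key x hx, ← key x' hx', h]

theorem far_coord {M d : ℕ} {r ρ : ℝ} (W : ℕ) (hWM : 16 * W ≤ M) (hr : 0 ≤ r) (hρ : 0 ≤ ρ)
    (hρr : r ^ 2 - 3 * (M : ℝ) ^ 2 / 256 ≤ ρ ^ 2) (j : Fin d) :
    (((IB d r).filter (fun x => (M : ℤ) ≤ 8 * |x j|)).card : ℝ) * W ≤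
      (IB d ρ).card * (2 * r + 3) := by
  classical
  have h1 : ((IB d r).filter (fun x => (M : ℤ) ≤ 8 * |x j|)).card * W ≤
      (IB d ρ).card * (Icc (-⌈r⌉) ⌈r⌉).card := by
    have e1 : W = (range W).card := (card_range W).symm
    conv_lhs => rw [e1]
    rw [← card_product, ← card_product]
    apply card_le_card_of_injOn (fun p => (Function.update p.1 j ((p.2 : ℕ) : ℤ), p.1 j))
    · rintro ⟨x, a⟩ hxa
      rw [mem_coe, mem_product, mem_filter, mem_IB hr, mem_range] at hxa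
      obtain ⟨⟨hx1, hx2⟩, ha⟩ := hxa
      simp only at hx1 hx2 ha
      rw [mem_coe, mem_product, mem_IB hρ]
      constructor
      · simp only
        have e2 : ∑ i, (((Function.update x j (a : ℤ)) i : ℤ) : ℝ) ^ 2 =
            ∑ i, ((x i : ℤ) : ℝ) ^ 2 - ((x j : ℤ) : ℝ) ^ 2 + (a : ℝ) ^ 2 := by
          rw [← add_sum_erase univ _ (mem_univ j), ← add_sum_erase univ (fun i => ((x i : ℤ) : ℝ) ^ 2)
            (mem_univ j)]
          have : ∑ i ∈ univ.erase j, (((Function.update x j (a : ℤ)) i : ℤ) : ℝ) ^ 2 =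
              ∑ i ∈ univ.erase j, ((x i : ℤ) : ℝ) ^ 2 := by
            refine sum_congr rfl fun i hi => ?_
            rw [Function.update_of_ne (ne_of_mem_erase hi)]
          rw [this, Function.update_self]
          push_cast
          ring
        rw [e2]
        refine le_trans ?_ hρr
        have h3 : (M : ℝ) ≤ 8 * |((x j : ℤ) : ℝ)| := by exact_mod_cast hx2
        have h4 : (M : ℝ) ^ 2 ≤ 64 * ((x j : ℤ) : ℝ) ^ 2 := by
          calc (M : ℝ) ^ 2 ≤ (8 * |((x j : ℤ) : ℝ)|) ^ 2 := by gcongr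
            _ = _ := by rw [mul_pow, sq_abs]; norm_num
        have h5 : (a : ℝ) ≤ W := by exact_mod_cast ha.le
        have h6 : 16 * (W : ℝ) ≤ M := by exact_mod_cast hWM
        have h7 : (16 * (a : ℝ)) ^ 2 ≤ (M : ℝ) ^ 2 := by
          apply pow_le_pow_left₀ (by positivity)
          linarith
        rw [mul_pow] at h7
        linarith
      · simp only
        have h3 : ((x j : ℤ) : ℝ) ^ 2 ≤ r ^ 2 :=
          (single_le_sum (f := fun j => ((x j : ℤ) : ℝ) ^ 2) (fun i _ => sq_nonneg _)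
            (mem_univ j)).trans hx1
        have h4 := abs_le_of_sq_le_sq' h3 hr
        have h5 : r ≤ (⌈r⌉ : ℝ) := Int.le_ceil r
        rw [mem_Icc]
        constructor
        · have : ((-⌈r⌉ : ℤ) : ℝ) ≤ x j := by push_cast; linarith
          exact_mod_cast this
        · have : ((x j : ℤ) : ℝ) ≤ (⌈r⌉ : ℤ) := by linarith
          exact_mod_cast this
    · rintro ⟨x, a⟩ _ ⟨x', a'⟩ _ h
      simp only [Prod.mk.injEq] at h
      obtain ⟨h1, h2⟩ := h
      have ha : (a : ℤ) = a' := by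
        have := congrFun h1 j
        rwa [Function.update_self, Function.update_self] at this
      have hx : x = x' := by
        funext i
        by_cases hi : i = j
        · rw [hi, h2]
        · have := congrFun h1 i
          rwa [Function.update_of_ne hi, Function.update_of_ne hi] at this
      simp only [Prod.mk.injEq]
      exact ⟨hx, by exact_mod_cast ha⟩
  have h2 : ((Icc (-⌈r⌉) ⌈r⌉).card : ℝ) ≤ 2 * r + 3 := by
    rw [Int.card_Icc]
    have h3 : (0 : ℤ) ≤ ⌈r⌉ := Int.ceil_nonneg hr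
    have h4 : (((⌈r⌉ + 1 - -⌈r⌉).toNat : ℕ) : ℤ) = ⌈r⌉ + 1 - -⌈r⌉ := Int.toNat_of_nonneg (by omega)
    have h5 : (((⌈r⌉ + 1 - -⌈r⌉).toNat : ℕ) : ℝ) = ⌈r⌉ + 1 - -⌈r⌉ := by exact_mod_cast h4
    rw [h5]
    have h6 := Int.ceil_lt_add_one r
    linarith
  calc (((IB d r).filter (fun x => (M : ℤ) ≤ 8 * |x j|)).card : ℝ) * W
      ≤ (IB d ρ).card * (Icc (-⌈r⌉) ⌈r⌉).card := by exact_mod_cast h1
    _ ≤ (IB d ρ).card * (2 * r + 3) := by gcongr

theorem XX_half {M d : ℕ} [NeZero M] {r ρ : ℝ} (W : ℕ) (hW : 0 < W) (hWM : 16 * W ≤ M)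
    (hr : 0 ≤ r) (hρ : 0 ≤ ρ) (hρr : r ^ 2 - 3 * (M : ℝ) ^ 2 / 256 ≤ ρ ^ 2)
    (hsmall : 2 * d * ((IB d ρ).card * (2 * r + 3)) ≤ (IB d r).card * (W : ℝ)) :
    ((IB d r).card : ℝ) ≤ 2 * (XX M d r).card := by
  classical
  have h1 := XX_ge (M := M) (d := d) hr
  have h2 : (IB d r).filter (fun x => ¬ ∀ j, 8 * |x j| < (M : ℤ)) ⊆
      (univ : Finset (Fin d)).biUnion (fun j => (IB d r).filter (fun x => (M : ℤ) ≤ 8 * |x j|)) := by
    intro x hx
    rw [mem_filter] at hx
    have hx2 := hx.2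
    push Not at hx2
    obtain ⟨j, hj⟩ := hx2
    rw [mem_biUnion]
    exact ⟨j, mem_univ _, by rw [mem_filter]; exact ⟨hx.1, hj⟩⟩
  have h3 : (((IB d r).filter (fun x => ¬ ∀ j, 8 * |x j| < (M : ℤ))).card : ℝ) ≤
      ∑ j : Fin d, (((IB d r).filter (fun x => (M : ℤ) ≤ 8 * |x j|)).card : ℝ) := by
    exact_mod_cast (card_le_card h2).trans card_biUnion_le
  have hWr : (0 : ℝ) < W := by exact_mod_cast hW
  have h4 : (∑ j : Fin d, (((IB d r).filter (fun x => (M : ℤ) ≤ 8 * |x j|)).card : ℝ)) * W ≤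
      d * ((IB d ρ).card * (2 * r + 3)) := by
    rw [sum_mul]
    calc ∑ j : Fin d, (((IB d r).filter (fun x => (M : ℤ) ≤ 8 * |x j|)).card : ℝ) * W
        ≤ ∑ _j : Fin d, ((IB d ρ).card : ℝ) * (2 * r + 3) :=
          sum_le_sum fun j _ => far_coord W hWM hr hρ hρr j
      _ = _ := by rw [sum_const, card_univ, Fintype.card_fin, nsmul_eq_mul]
  have h5 : ((IB d r).filter (fun x => ∀ j, 8 * |x j| < (M : ℤ))).card +
      ((IB d r).filter (fun x => ¬ ∀ j, 8 * |x j| < (M : ℤ))).card = (IB d r).card :=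
    card_filter_add_card_filter_not _
  have h6 : (((IB d r).filter (fun x => ∀ j, 8 * |x j| < (M : ℤ))).card : ℝ) +
      (((IB d r).filter (fun x => ¬ ∀ j, 8 * |x j| < (M : ℤ))).card : ℝ) = (IB d r).card := by
    exact_mod_cast h5
  have h7 : (((IB d r).filter (fun x => ∀ j, 8 * |x j| < (M : ℤ))).card : ℝ) ≤ (XX M d r).card := by
    exact_mod_cast h1
  have h8 : 2 * (((IB d r).filter (fun x => ¬ ∀ j, 8 * |x j| < (M : ℤ))).card : ℝ) ≤ (IB d r).card := by
    have h9 : (2 * (((IB d r).filter (fun x => ¬ ∀ j, 8 * |x j| < (M : ℤ))).card : ℝ)) * W ≤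
        (IB d r).card * W := by nlinarith
    exact le_of_mul_le_mul_right h9 hWr
  linarith

theorem small_t {M : ℕ} [NeZero M] {t : ℤ} (h : 128 * t ^ 2 ≤ (M : ℤ) ^ 2) : 8 * |t| < M := by
  have hM : (0 : ℤ) < M := by exact_mod_cast Nat.pos_of_ne_zero (NeZero.ne M)
  by_contra hcon
  push Not at hcon
  have h1 : (M : ℤ) ^ 2 ≤ (8 * |t|) ^ 2 := by
    apply pow_le_pow_left₀ hM.le hcon
  rw [mul_pow, sq_abs] at h1
  have h2 : 0 < (M : ℤ) ^ 2 := by positivity
  linarith

/-- the deterministic step -/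
theorem step {M d : ℕ} [NeZero M] {r ρ : ℝ} (s : Fin d → ZMod M) {x y m : Fin d → ℤ}
    (hm : ∀ j, x j + y j = 2 * m j) (ht : 128 * ∑ j, (m j - x j) ^ 2 ≤ (M : ℤ) ^ 2)
    (hx : cc M x - s ∈ XX M d r) (hy : cc M y - s ∈ XX M d r) (hmb : cc M m - s ∉ YY M d ρ) :
    ∑ j, (((m j - x j : ℤ)) : ℝ) ^ 2 ≤ r ^ 2 - ρ ^ 2 := by
  classical
  unfold XX at hx hy
  unfold YY at hmb
  rw [mem_filter] at hx hy hmb
  have htj : ∀ j, 8 * |m j - x j| < M := by
    intro j
    apply small_t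
    have := single_le_sum (f := fun j => (m j - x j) ^ 2) (fun i _ => sq_nonneg _) (mem_univ j)
    linarith
  have hdvd : ∀ j, vv (cc M y - s) j = vv (cc M x - s) j + 2 * (m j - x j) := by
    intro j
    have h1 : ((vv (cc M x - s) j : ℤ) : ZMod M) = (x j : ZMod M) - s j :=
      congrFun (cc_vv (cc M x - s)) j
    have h2 : ((vv (cc M y - s) j : ℤ) : ZMod M) = (y j : ZMod M) - s j :=
      congrFun (cc_vv (cc M y - s)) j
    have h3 : ((vv (cc M x - s) j + 2 * (m j - x j) - vv (cc M y - s) j : ℤ) : ZMod M) = 0 := by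
      have h4 : (y j : ℤ) = 2 * m j - x j := by linarith [hm j]
      push_cast
      rw [h1, h2, h4]
      push_cast
      ring
    rw [ZMod.intCast_zmod_eq_zero_iff_dvd] at h3
    have h5 := hx.2.1 j
    have h6 := hy.2.1 j
    have h7 := htj j
    have h8 : vv (cc M x - s) j + 2 * (m j - x j) - vv (cc M y - s) j = 0 := by
      apply Int.eq_zero_of_abs_lt_dvd h3
      rw [abs_lt]
      have a1 := neg_abs_le (vv (cc M x - s) j)
      have a2 := le_abs_self (vv (cc M x - s) j)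
      have a3 := neg_abs_le (vv (cc M y - s) j)
      have a4 := le_abs_self (vv (cc M y - s) j)
      have a5 := neg_abs_le (m j - x j)
      have a6 := le_abs_self (m j - x j)
      constructor <;> linarith
    linarith
  have hmv : vv (cc M m - s) = fun j => vv (cc M x - s) j + (m j - x j) := by
    have e1 : cc M m - s = cc M (fun j => vv (cc M x - s) j + (m j - x j)) := by
      funext j
      have h1 : ((vv (cc M x - s) j : ℤ) : ZMod M) = (x j : ZMod M) - s j :=
        congrFun (cc_vv (cc M x - s)) j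
      unfold cc at h1 ⊢
      simp only [Pi.sub_apply]
      push_cast
      rw [h1]
      ring
    rw [e1]
    apply vv_cc
    intro j
    have h5 := hx.2.1 j
    have h7 := htj j
    have h8 := abs_add_le (vv (cc M x - s) j) (m j - x j)
    have h9 := abs_nonneg (vv (cc M x - s) j)
    linarith
  have hpar : ∑ j, ((vv (cc M m - s) j : ℤ) : ℝ) ^ 2 =
      (∑ j, ((vv (cc M x - s) j : ℤ) : ℝ) ^ 2 + ∑ j, ((vv (cc M y - s) j : ℤ) : ℝ) ^ 2) / 2 -
        ∑ j, (((m j - x j : ℤ)) : ℝ) ^ 2 := by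
    rw [← sum_add_distrib, sum_div, ← sum_sub_distrib]
    refine sum_congr rfl fun j _ => ?_
    rw [hmv, hdvd j]
    push_cast
    ring
  have hm' : ¬ ∑ j, ((vv (cc M m - s) j : ℤ) : ℝ) ^ 2 ≤ ρ ^ 2 := fun h => hmb ⟨mem_univ _, h⟩
  push Not at hm'
  linarith [hx.2.2, hy.2.2]

/-- one level -/
theorem level {M d : ℕ} [NeZero M] {r ρ l : ℝ} (hX : (XX M d r).Nonempty)
    (hl : (M : ℝ) ^ 2 / 32 ≤ l ^ 2) (k : ℕ) (hk : M ^ d < 2 ^ k) :
    ∃ (V : ℕ) (c : (Fin d → ZMod M) → Fin V) (Bad : Finset (Fin d → ZMod M)),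
      V = (4 * (ZZ M d r l).card / (XX M d r).card + 1) * k ∧
      Bad.card * (XX M d r).card ≤ 8 * k * M ^ d * (YY M d ρ).card ∧
      ∀ x y m : Fin d → ℤ, (∀ j, x j + y j = 2 * m j) →
        128 * ∑ j, (m j - x j) ^ 2 ≤ (M : ℤ) ^ 2 → c (cc M x) = c (cc M y) → cc M m ∉ Bad →
        ∑ j, (((m j - x j : ℤ)) : ℝ) ^ 2 ≤ r ^ 2 - ρ ^ 2 := by
  classical
  have hcardG : Fintype.card (Fin d → ZMod M) = M ^ d := by
    rw [Fintype.card_fun, Fintype.card_fin, ZMod.card]
  obtain ⟨V, q, F, hV, hVq, hF⟩ := families (XX M d r) (ZZ M d r l) (XX_sub r l) hX k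
    (by rw [hcardG]; exact hk)
  choose c hc using hF
  refine ⟨V, c, ((univ : Finset (Fin V)) ×ˢ ((univ : Finset (Fin q)) ×ˢ YY M d ρ)).image
    (fun p => F p.1 p.2.1 + p.2.2), hV, ?_, ?_⟩
  · have h1 : (((univ : Finset (Fin V)) ×ˢ ((univ : Finset (Fin q)) ×ˢ YY M d ρ)).image
        (fun p => F p.1 p.2.1 + p.2.2)).card ≤ V * (q * (YY M d ρ).card) := by
      refine card_image_le.trans (le_of_eq ?_)
      rw [card_product, card_product, card_univ, card_univ, Fintype.card_fin, Fintype.card_fin]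
    calc _ ≤ V * (q * (YY M d ρ).card) * (XX M d r).card := Nat.mul_le_mul_right _ h1
      _ = (V * q * (XX M d r).card) * (YY M d ρ).card := by ring
      _ ≤ (8 * k * Fintype.card (Fin d → ZMod M)) * (YY M d ρ).card := Nat.mul_le_mul_right _ hVq
      _ = _ := by rw [hcardG]
  · intro x y m hm ht hcol hbad
    obtain ⟨I, hI1, hI2⟩ := hc (cc M x)
    obtain ⟨J, hJ1, _⟩ := hc (cc M y)
    rw [← hcol] at hJ1
    have hIJ : J = I := by
      by_contra hne
      apply hI2 J hne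
      unfold ZZ
      rw [mem_filter]
      refine ⟨mem_univ _, _, hJ1, ?_⟩
      have e1 : cc M x - F (c (cc M x)) J - (cc M y - F (c (cc M x)) J) =
          cc M (fun j => 2 * (x j - m j)) := by
        funext j
        have h4 : (y j : ℤ) = 2 * m j - x j := by linarith [hm j]
        unfold cc
        simp only [Pi.sub_apply]
        rw [h4]
        push_cast
        ring
      rw [e1, vv_cc]
      · have e2 : ∑ j, (((2 * (x j - m j) : ℤ)) : ℝ) ^ 2 = 4 * ∑ j, (((m j - x j : ℤ)) : ℝ) ^ 2 := by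
          rw [mul_sum]
          refine sum_congr rfl fun j _ => ?_
          push_cast
          ring
        rw [e2]
        refine le_trans ?_ hl
        have h5 : (128 : ℝ) * ∑ j, (((m j - x j : ℤ)) : ℝ) ^ 2 ≤ (M : ℝ) ^ 2 := by
          exact_mod_cast ht
        linarith
      · intro j
        have h6 : 8 * |m j - x j| < M := by
          apply small_t
          have := single_le_sum (f := fun j => (m j - x j) ^ 2) (fun i _ => sq_nonneg _)
            (mem_univ j)
          linarith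
        rw [abs_mul, abs_sub_comm (x j) (m j)]
        have h7 := abs_nonneg (m j - x j)
        have h8 : |(2 : ℤ)| = 2 := rfl
        rw [h8]
        linarith
    rw [hIJ] at hJ1
    refine step (F (c (cc M x)) I) hm ht hI1 hJ1 ?_
    intro hY
    apply hbad
    rw [mem_image]
    refine ⟨(c (cc M x), I, cc M m - F (c (cc M x)) I), ?_, by simp⟩
    rw [mem_product, mem_product]
    exact ⟨mem_univ _, mem_univ _, hY⟩

end Pool.Agent.H208F
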