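import Mathlib

/-!
Families of translates which cover every point without interference.
-/

set_option autoImplicit false

namespace Pool.Agent.H208F

open Finset

theorem prod_one_special {q : ℕ} (I : Fin (q + 1)) (a b : ℕ) :
    ∏ J : Fin (q + 1), (if J = I then a else b) = a * b ^ q := by
  rw [Fin.prod_univ_succAbove _ I]
  simp [Fin.succAbove_ne]

/-- repeated halving: if every point is served by a proportion `p` of the elements of `H`, then
`V` suitable elements leave at most `(1-p)^V` of the points unserved -/
theorem greedy {α H : Type} [Fintype α] [Fintype H] [Nonempty H] (R : α → H → Prop)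
    [∀ x, DecidablePred (R x)] {p : ℝ} (hp1 : p ≤ 1)
    (h : ∀ x, p * Fintype.card H ≤ ((univ : Finset H).filter (fun s => R x s)).card) (V : ℕ) :
    ∃ F : Fin V → H, (((univ : Finset α).filter (fun x => ∀ v, ¬ R x (F v))).card : ℝ) ≤
      (1 - p) ^ V * Fintype.card α := by
  classical
  induction V with
  | zero =>
    refine ⟨fun i => i.elim0, ?_⟩
    rw [pow_zero, one_mul]
    exact_mod_cast card_le_univ _
  | succ V ih =>
    obtain ⟨F, hF⟩ := ih
    set S : Finset α := (univ : Finset α).filter (fun x => ∀ v, ¬ R x (F v)) with hS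
    have hHpos : (0 : ℝ) < Fintype.card H := by exact_mod_cast Fintype.card_pos
    -- average over `s`
    obtain ⟨s, hs⟩ : ∃ s : H, ((S.filter (fun x => ¬ R x s)).card : ℝ) ≤ (1 - p) * S.card := by
      by_contra hcon
      push Not at hcon
      have h1 : ∑ _s : H, (1 - p) * (S.card : ℝ) < ∑ s : H, ((S.filter (fun x => ¬ R x s)).card : ℝ) :=
        sum_lt_sum_of_nonempty univ_nonempty fun s _ => hcon s
      have h2 : ∑ s : H, ((S.filter (fun x => ¬ R x s)).card : ℝ) =
          ∑ x ∈ S, (((univ : Finset H).filter (fun s => ¬ R x s)).card : ℝ) := by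
        have : ∑ s : H, (S.filter (fun x => ¬ R x s)).card =
            ∑ x ∈ S, ((univ : Finset H).filter (fun s => ¬ R x s)).card := by
          simp only [card_filter]
          exact sum_comm
        exact_mod_cast this
      have h3 : ∀ x ∈ S, (((univ : Finset H).filter (fun s => ¬ R x s)).card : ℝ) ≤
          (1 - p) * Fintype.card H := by
        intro x _
        have h4 := card_filter_add_card_filter_not (s := (univ : Finset H)) (fun s => R x s)
        rw [card_univ] at h4
        have h5 : (((univ : Finset H).filter (fun s => R x s)).card : ℝ) +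
            (((univ : Finset H).filter (fun s => ¬ R x s)).card : ℝ) = Fintype.card H := by
          exact_mod_cast h4
        linarith [h x]
      have h6 := sum_le_sum h3
      rw [sum_const, nsmul_eq_mul] at h6
      rw [sum_const, card_univ, nsmul_eq_mul, h2] at h1
      nlinarith
    refine ⟨Fin.snoc F s, ?_⟩
    have hsub : (univ : Finset α).filter (fun x => ∀ v, ¬ R x ((Fin.snoc F s : Fin (V + 1) → H) v)) ⊆
        S.filter (fun x => ¬ R x s) := by
      intro x hx
      rw [mem_filter] at hx
      rw [mem_filter, hS, mem_filter]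
      refine ⟨⟨mem_univ _, fun v => ?_⟩, ?_⟩
      · have := hx.2 v.castSucc
        rwa [Fin.snoc_castSucc] at this
      · have := hx.2 (Fin.last V)
        rwa [Fin.snoc_last] at this
    calc (((univ : Finset α).filter
          (fun x => ∀ v, ¬ R x ((Fin.snoc F s : Fin (V + 1) → H) v))).card : ℝ)
        ≤ ((S.filter (fun x => ¬ R x s)).card : ℝ) := by exact_mod_cast card_le_card hsub
      _ ≤ (1 - p) * S.card := hs
      _ ≤ (1 - p) * ((1 - p) ^ V * Fintype.card α) := by
          apply mul_le_mul_of_nonneg_left hF (by linarith)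
      _ = _ := by ring

variable {G : Type} [AddCommGroup G] [Fintype G] [DecidableEq G]

/-- `x` lies in exactly one translate of `X` of the family `F`, and in no other translate of the
larger set `X'` -/
def Good (X X' : Finset G) {q : ℕ} (F : Fin q → G) (x : G) : Prop :=
  ∃ I, x - F I ∈ X ∧ ∀ J, J ≠ I → x - F J ∉ X'

theorem card_shift (X : Finset G) (x : G) :
    ((univ : Finset G).filter (fun s => x - s ∈ X)).card = X.card := by
  apply card_bij (fun s _ => x - s)
  · intro s hs; simpa using hs
  · intro a _ b _ hab; simpa using hab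
  · intro b hb; exact ⟨x - b, by simpa using hb, by simp⟩

theorem card_shift_not (X : Finset G) (x : G) :
    ((univ : Finset G).filter (fun s => x - s ∉ X)).card = Fintype.card G - X.card := by
  have h := card_filter_add_card_filter_not (s := (univ : Finset G)) (fun s => x - s ∈ X)
  rw [card_shift, card_univ] at h
  omega

open Classical in
theorem good_count (X X' : Finset G) (hXX : X ⊆ X') (q : ℕ) (x : G) :
    (q + 1) * (X.card * (Fintype.card G - X'.card) ^ q) ≤
      ((univ : Finset (Fin (q + 1) → G)).filter (fun F => Good X X' F x)).card := by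
  set S : Fin (q + 1) → Finset (Fin (q + 1) → G) := fun I =>
    Fintype.piFinset (fun J => if J = I then (univ : Finset G).filter (fun s => x - s ∈ X)
      else (univ : Finset G).filter (fun s => x - s ∉ X')) with hS
  have hmem : ∀ I F, F ∈ S I ↔ (x - F I ∈ X ∧ ∀ J, J ≠ I → x - F J ∉ X') := by
    intro I F
    rw [hS]
    simp only [Fintype.mem_piFinset]
    constructor
    · intro h
      refine ⟨?_, fun J hJ => ?_⟩
      · have := h I
        simpa using this
      · have := h J
        simpa [hJ] using this
    · rintro ⟨h1, h2⟩ J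
      by_cases hJ : J = I
      · subst hJ; simpa using h1
      · simpa [hJ] using h2 J hJ
  have hcard : ∀ I, (S I).card = X.card * (Fintype.card G - X'.card) ^ q := by
    intro I
    rw [hS]
    simp only [Fintype.card_piFinset]
    rw [← prod_one_special I]
    refine prod_congr rfl fun J _ => ?_
    split_ifs
    · exact card_shift X x
    · exact card_shift_not X' x
  have hdisj : ∀ I ∈ (univ : Finset (Fin (q + 1))), ∀ J ∈ (univ : Finset (Fin (q + 1))), I ≠ J →
      Disjoint (S I) (S J) := by
    intro I _ J _ hIJ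
    rw [disjoint_left]
    intro F h1 h2
    rw [hmem] at h1 h2
    exact h1.2 J hIJ.symm (hXX h2.1)
  calc (q + 1) * (X.card * (Fintype.card G - X'.card) ^ q)
      = ∑ I : Fin (q + 1), (S I).card := by
        rw [sum_congr rfl (fun I _ => hcard I), sum_const, card_univ, Fintype.card_fin,
          smul_eq_mul]
    _ = (univ.biUnion S).card := (card_biUnion hdisj).symm
    _ ≤ _ := by
        apply card_le_card
        intro F hF
        rw [mem_biUnion] at hF
        obtain ⟨I, _, hI⟩ := hF
        rw [mem_filter]
        exact ⟨mem_univ _, I, (hmem I F).1 hI⟩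

/-- the families -/
theorem families (X X' : Finset G) (hXX : X ⊆ X') (hX : X.Nonempty) (k : ℕ)
    (hk : Fintype.card G < 2 ^ k) :
    ∃ (V q : ℕ) (F : Fin V → Fin q → G), V = (4 * X'.card / X.card + 1) * k ∧
      V * q * X.card ≤ 8 * k * Fintype.card G ∧ ∀ x, ∃ v, Good X X' (F v) x := by
  classical
  have hXp : 0 < X.card := hX.card_pos
  have hXX' : X.card ≤ X'.card := card_le_card hXX
  have hX'p : 0 < X'.card := by omega
  have hX'G : X'.card ≤ Fintype.card G := card_le_univ _
  have hG : 0 < Fintype.card G := Fintype.card_pos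
  obtain ⟨p', hp'⟩ : ∃ p', p' = 4 * X'.card / X.card + 1 := ⟨_, rfl⟩
  have hp1 : 4 * X'.card ≤ p' * X.card := by
    rw [hp', mul_comm (4 * X'.card / X.card + 1)]
    exact (Nat.lt_mul_div_succ (4 * X'.card) hXp).le
  have hp2 : p' * X.card ≤ 5 * X'.card := by
    rw [hp', add_mul, one_mul]
    have := Nat.div_mul_le_self (4 * X'.card) X.card
    omega
  have hp'pos : 0 < p' := by rw [hp']; exact Nat.succ_pos _
  obtain ⟨q, hq⟩ : ∃ q, q = Fintype.card G / (2 * X'.card) := ⟨_, rfl⟩
  have hq1 : q * (2 * X'.card) ≤ Fintype.card G := by rw [hq]; exact Nat.div_mul_le_self _ _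
  have hq2 : Fintype.card G < (q + 1) * (2 * X'.card) := by
    rw [hq, mul_comm]
    exact Nat.lt_mul_div_succ _ (by omega)
  -- Bernoulli
  have hgr : (0 : ℝ) < Fintype.card G := by exact_mod_cast hG
  have hbern : (Fintype.card G : ℝ) ^ q / 2 ≤ ((Fintype.card G : ℝ) - X'.card) ^ q := by
    have h1 : (1 : ℝ) + q * (-(X'.card / Fintype.card G)) ≤
        (1 + -((X'.card : ℝ) / Fintype.card G)) ^ q := by
      apply one_add_mul_le_pow
      have : (X'.card : ℝ) / Fintype.card G ≤ 1 := by
        rw [div_le_one hgr]; exact_mod_cast hX'G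
      linarith
    have h2 : (q : ℝ) * (X'.card / Fintype.card G) ≤ 1 / 2 := by
      rw [← mul_div_assoc, div_le_div_iff₀ hgr (by norm_num)]
      have : ((q * (2 * X'.card) : ℕ) : ℝ) ≤ Fintype.card G := by exact_mod_cast hq1
      push_cast at this
      linarith
    have h3 : (1 : ℝ) / 2 ≤ (1 + -((X'.card : ℝ) / Fintype.card G)) ^ q := by linarith
    have h4 : ((Fintype.card G : ℝ) - X'.card) ^ q =
        (Fintype.card G : ℝ) ^ q * (1 + -((X'.card : ℝ) / Fintype.card G)) ^ q := by
      rw [← mul_pow]
      congr 1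
      field_simp
      ring
    rw [h4]
    have h5 : (0 : ℝ) < (Fintype.card G : ℝ) ^ q := by positivity
    nlinarith
  -- proportion of good families
  have hprop : ∀ x, (1 / (p' : ℝ)) * Fintype.card (Fin (q + 1) → G) ≤
      (((univ : Finset (Fin (q + 1) → G)).filter (fun F => Good X X' F x)).card : ℝ) := by
    intro x
    have h1 : (((q + 1) * (X.card * (Fintype.card G - X'.card) ^ q) : ℕ) : ℝ) ≤
        (((univ : Finset (Fin (q + 1) → G)).filter (fun F => Good X X' F x)).card : ℝ) := by
      exact_mod_cast good_count X X' hXX q x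
    refine le_trans ?_ h1
    rw [Nat.cast_mul, Nat.cast_mul, Nat.cast_pow, Nat.cast_sub hX'G, Fintype.card_fun,
      Fintype.card_fin, Nat.cast_pow, one_div_mul_eq_div]
    have hp'r : (0 : ℝ) < p' := by exact_mod_cast hp'pos
    rw [div_le_iff₀ hp'r]
    have hq2r : (Fintype.card G : ℝ) ≤ (q + 1) * (2 * X'.card) := by exact_mod_cast hq2.le
    have hp1r : 4 * (X'.card : ℝ) ≤ p' * X.card := by exact_mod_cast hp1
    have hxr : (0 : ℝ) ≤ X.card := Nat.cast_nonneg _
    have hx'r : (0 : ℝ) ≤ X'.card := Nat.cast_nonneg _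
    have hqr : (0 : ℝ) ≤ q := Nat.cast_nonneg _
    calc (Fintype.card G : ℝ) ^ (q + 1) = (Fintype.card G : ℝ) ^ q * Fintype.card G := by
          rw [pow_succ]
      _ ≤ (Fintype.card G : ℝ) ^ q * ((q + 1) * (2 * X'.card)) := by
          apply mul_le_mul_of_nonneg_left hq2r (by positivity)
      _ = (q + 1) * (4 * X'.card) * ((Fintype.card G : ℝ) ^ q / 2) := by ring
      _ ≤ (q + 1) * (p' * X.card) * (((Fintype.card G : ℝ) - X'.card) ^ q) := by
          apply mul_le_mul _ hbern (by positivity) (by positivity)
          apply mul_le_mul_of_nonneg_left hp1r (by positivity)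
      _ = _ := by push_cast; ring
  have hp'1 : 1 / (p' : ℝ) ≤ 1 := by
    have : (1 : ℝ) ≤ p' := by exact_mod_cast hp'pos
    rw [div_le_one (by linarith)]
    exact this
  obtain ⟨F, hF⟩ := greedy (fun (x : G) (F : Fin (q + 1) → G) => Good X X' F x) hp'1 hprop (p' * k)
  refine ⟨p' * k, q + 1, F, by rw [hp'], ?_, ?_⟩
  · calc p' * k * (q + 1) * X.card = k * (q + 1) * (p' * X.card) := by ring
      _ ≤ k * (q + 1) * (5 * X'.card) := Nat.mul_le_mul_left _ hp2
      _ = k * (5 * (q * X'.card) + 5 * X'.card) := by ring
      _ ≤ k * (8 * Fintype.card G) := by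
          apply Nat.mul_le_mul_left
          have : q * (2 * X'.card) = 2 * (q * X'.card) := by ring
          omega
      _ = _ := by ring
  · by_contra hcon
    push Not at hcon
    obtain ⟨x, hx⟩ := hcon
    have h1 : (1 : ℝ) ≤ (((univ : Finset G).filter
        (fun x => ∀ v, ¬ Good X X' (F v) x)).card : ℝ) := by
      have : 0 < ((univ : Finset G).filter (fun x => ∀ v, ¬ Good X X' (F v) x)).card :=
        card_pos.mpr ⟨x, by rw [mem_filter]; exact ⟨mem_univ _, hx⟩⟩
      exact_mod_cast this
    have h2 : (1 - 1 / (p' : ℝ)) ^ (p' * k) ≤ (1 / 2 : ℝ) ^ k := by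
      rw [pow_mul]
      apply pow_le_pow_left₀ (by
        apply pow_nonneg
        linarith)
      have hp'r : (0 : ℝ) < p' := by exact_mod_cast hp'pos
      have h3 : 1 - 1 / (p' : ℝ) ≤ Real.exp (-(1 / (p' : ℝ))) := by
        have := Real.add_one_le_exp (-(1 / (p' : ℝ)))
        linarith
      calc (1 - 1 / (p' : ℝ)) ^ p' ≤ (Real.exp (-(1 / (p' : ℝ)))) ^ p' :=
            pow_le_pow_left₀ (by linarith) h3 _
        _ = Real.exp (-1) := by
            rw [← Real.exp_nat_mul]
            congr 1
            field_simp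
        _ ≤ 1 / 2 := by
            rw [Real.exp_neg, ← one_div]
            apply one_div_le_one_div_of_le (by norm_num)
            have := Real.add_one_le_exp (1 : ℝ)
            linarith
    have h3 : (1 / 2 : ℝ) ^ k * Fintype.card G < 1 := by
      have h4 : (Fintype.card G : ℝ) < 2 ^ k := by exact_mod_cast hk
      rw [one_div, inv_pow, inv_mul_lt_iff₀ (by positivity), mul_one]
      exact h4
    have h4 : (1 - 1 / (p' : ℝ)) ^ (p' * k) * Fintype.card G ≤ (1 / 2 : ℝ) ^ k * Fintype.card G :=
      mul_le_mul_of_nonneg_right h2 hgr.le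
    linarith

end Pool.Agent.H208F
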