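import Pool.Agent.H208F.Num

/-!
The colouring of digit vectors and of intervals.
-/

set_option autoImplicit false

namespace Pool.Agent.H208F

open Finset

theorem count_mod {d M R Q : ℕ} [NeZero M] (hQ : Q = M * R) (Bad : Finset (Fin d → ZMod M)) :
    ((univ : Finset (Fin d → Fin Q)).filter
      (fun m => cc M (fun j => ((m j : ℕ) : ℤ)) ∈ Bad)).card ≤ Bad.card * R ^ d := by
  classical
  have hM : 0 < M := Nat.pos_of_ne_zero (NeZero.ne M)
  have e1 : R ^ d = (Fintype.piFinset (fun _ : Fin d => range R)).card := by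
    rw [Fintype.card_piFinset]; simp
  rw [e1, ← card_product]
  apply card_le_card_of_injOn
    (fun m : Fin d → Fin Q => (cc M (fun j => ((m j : ℕ) : ℤ)), fun j => (m j : ℕ) / M))
  · intro m hm
    rw [mem_coe, mem_filter] at hm
    rw [mem_coe, mem_product, Fintype.mem_piFinset]
    refine ⟨hm.2, fun j => ?_⟩
    rw [mem_range, Nat.div_lt_iff_lt_mul hM, mul_comm, ← hQ]
    exact (m j).isLt
  · intro m _ m' _ h
    simp only [Prod.mk.injEq] at h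
    obtain ⟨h1, h2⟩ := h
    funext j
    apply Fin.ext
    have h3 := congrFun h1 j
    have h4 := congrFun h2 j
    unfold cc at h3
    simp only [Int.cast_natCast] at h3
    rw [ZMod.natCast_eq_natCast_iff'] at h3
    rw [← Nat.div_add_mod (m j : ℕ) M, ← Nat.div_add_mod (m' j : ℕ) M, h3]
    rw [h4]

theorem colour_digits {g w a : ℕ} (hg : 5 ≤ g) (hw : 2 * g + 6 + a = w) :
    ∃ (c : (Fin (4 ^ g) → Fin (2 ^ w)) →
        (Fin a → Fin (2 ^ (64 * g * 2 ^ g + 4) * (w * 4 ^ g + 1))) ×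
        (Fin (4 ^ g) → Fin (2 ^ (2 * g + 6))) × (Fin (4 ^ g) → Fin (2 ^ (g + 3))))
      (B : Finset (Fin (4 ^ g) → Fin (2 ^ w))),
      B.card * 2 ^ (2 * g ^ 2) ≤ a * (16 * (w * 4 ^ g + 1) * (2 ^ w) ^ (4 ^ g)) ∧
      ∀ x y, x ≠ y → c x = c y → ∃ m ∈ B, ∀ j, 2 * (m j : ℕ) = (x j : ℕ) + (y j : ℕ) := by
  classical
  have h64 : 64 * 4 ^ g = 2 ^ (2 * g + 6) := by
    rw [pow_add, pow_mul]; norm_num; ring
  have hlev : ∀ i : Fin a, ∃ (V : ℕ) (c : (Fin (4 ^ g) → ZMod (2 ^ (2 * g + 6 + i + 1))) → Fin V)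
      (Bad : Finset (Fin (4 ^ g) → ZMod (2 ^ (2 * g + 6 + i + 1)))),
      V ≤ 2 ^ (64 * g * 2 ^ g + 4) * (w * 4 ^ g + 1) ∧
      Bad.card * 2 ^ (2 * g ^ 2) ≤ 16 * (w * 4 ^ g + 1) * (2 ^ (2 * g + 6 + i + 1)) ^ (4 ^ g) ∧
      ∀ x y m : Fin (4 ^ g) → ℤ, (∀ j, x j + y j = 2 * m j) →
        128 * ∑ j, (m j - x j) ^ 2 ≤ (((2 ^ (2 * g + 6 + i + 1) : ℕ)) : ℤ) ^ 2 →
        c (cc _ x) = c (cc _ y) → cc _ m ∉ Bad →
        512 * ∑ j, (m j - x j) ^ 2 ≤ (((2 ^ (2 * g + 6 + i + 1) : ℕ)) : ℤ) ^ 2 := by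
    intro i
    refine level_num hg ?_ (2 ^ (2 * g + 3 + i)) ?_ ?_
    · rw [h64]
      exact Nat.pow_le_pow_right (by norm_num) (by omega)
    · rw [show 2 * g + 6 + (i : ℕ) + 1 = 4 + (2 * g + 3 + i) by ring, pow_add]
      norm_num
    · rw [← pow_mul]
      apply Nat.pow_lt_pow_right (by norm_num)
      have hi := i.isLt
      have : (2 * g + 6 + (i : ℕ) + 1) * 4 ^ g ≤ w * 4 ^ g := Nat.mul_le_mul_right _ (by omega)
      omega
  choose V c Bad hV hBad hc using hlev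
  have htop : ∀ y : Fin (2 ^ w), (y : ℕ) / 2 ^ (w - (g + 3)) < 2 ^ (g + 3) := by
    intro y
    rw [Nat.div_lt_iff_lt_mul (by positivity), ← pow_add]
    have : g + 3 + (w - (g + 3)) = w := by omega
    rw [this]
    exact y.isLt
  refine ⟨fun x => (fun i => Fin.castLE (hV i) (c i (cc _ (fun j => ((x j : ℕ) : ℤ)))),
    fun j => ⟨(x j : ℕ) % 2 ^ (2 * g + 6), Nat.mod_lt _ (by positivity)⟩,
    fun j => ⟨(x j : ℕ) / 2 ^ (w - (g + 3)), htop (x j)⟩),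
    (univ : Finset (Fin a)).biUnion (fun i => (univ : Finset (Fin (4 ^ g) → Fin (2 ^ w))).filter
      (fun m => cc _ (fun j => ((m j : ℕ) : ℤ)) ∈ Bad i)), ?_, ?_⟩
  · have h1 : ∀ i : Fin a, ((univ : Finset (Fin (4 ^ g) → Fin (2 ^ w))).filter
        (fun m => cc _ (fun j => ((m j : ℕ) : ℤ)) ∈ Bad i)).card * 2 ^ (2 * g ^ 2) ≤
        16 * (w * 4 ^ g + 1) * (2 ^ w) ^ (4 ^ g) := by
      intro i
      have hi := i.isLt
      have h2 := count_mod (d := 4 ^ g) (M := 2 ^ (2 * g + 6 + i + 1)) (R := 2 ^ (a - 1 - i))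
        (Q := 2 ^ w) (by rw [← pow_add]; congr 1; omega) (Bad i)
      calc _ ≤ ((Bad i).card * (2 ^ (a - 1 - i)) ^ (4 ^ g)) * 2 ^ (2 * g ^ 2) :=
            Nat.mul_le_mul_right _ h2
        _ = ((Bad i).card * 2 ^ (2 * g ^ 2)) * (2 ^ (a - 1 - i)) ^ (4 ^ g) := by ring
        _ ≤ (16 * (w * 4 ^ g + 1) * (2 ^ (2 * g + 6 + i + 1)) ^ (4 ^ g)) *
            (2 ^ (a - 1 - i)) ^ (4 ^ g) := Nat.mul_le_mul_right _ (hBad i)
        _ = 16 * (w * 4 ^ g + 1) * (2 ^ w) ^ (4 ^ g) := by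
            rw [mul_assoc, ← mul_pow, ← pow_add]
            congr 3
            omega
    calc _ ≤ (∑ i : Fin a, ((univ : Finset (Fin (4 ^ g) → Fin (2 ^ w))).filter
          (fun m => cc _ (fun j => ((m j : ℕ) : ℤ)) ∈ Bad i)).card) * 2 ^ (2 * g ^ 2) :=
          Nat.mul_le_mul_right _ card_biUnion_le
      _ = ∑ i : Fin a, ((univ : Finset (Fin (4 ^ g) → Fin (2 ^ w))).filter
          (fun m => cc _ (fun j => ((m j : ℕ) : ℤ)) ∈ Bad i)).card * 2 ^ (2 * g ^ 2) := by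
          rw [sum_mul]
      _ ≤ ∑ _i : Fin a, 16 * (w * 4 ^ g + 1) * (2 ^ w) ^ (4 ^ g) := sum_le_sum fun i _ => h1 i
      _ = _ := by rw [sum_const, card_univ, Fintype.card_fin, smul_eq_mul]
  · intro x y hne hcol
    simp only [Prod.mk.injEq] at hcol
    obtain ⟨hc1, hc2, hc3⟩ := hcol
    have hc2' : ∀ j, (x j : ℕ) % 2 ^ (2 * g + 6) = (y j : ℕ) % 2 ^ (2 * g + 6) := by
      intro j
      have := congrFun hc2 j
      simpa [Fin.ext_iff] using this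
    have hc3' : ∀ j, (x j : ℕ) / 2 ^ (w - (g + 3)) = (y j : ℕ) / 2 ^ (w - (g + 3)) := by
      intro j
      have := congrFun hc3 j
      simpa [Fin.ext_iff] using this
    have hpar : ∀ j, (x j : ℕ) % 2 = (y j : ℕ) % 2 := by
      intro j
      have h1 := hc2' j
      have h2 : 2 ∣ 2 ^ (2 * g + 6) := dvd_pow_self 2 (by omega)
      rw [← Nat.mod_mod_of_dvd (x j : ℕ) h2, h1, Nat.mod_mod_of_dvd _ h2]
    obtain ⟨m, hm⟩ : ∃ m : Fin (4 ^ g) → Fin (2 ^ w), ∀ j, 2 * (m j : ℕ) = (x j : ℕ) + (y j : ℕ) := by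
      refine ⟨fun j => ⟨((x j : ℕ) + (y j : ℕ)) / 2, by
        have := (x j).isLt; have := (y j).isLt; omega⟩, fun j => ?_⟩
      have := hpar j
      simp only
      omega
    refine ⟨m, ?_, hm⟩
    by_contra hmB
    apply hne
    rw [mem_biUnion] at hmB
    push Not at hmB
    have hgood : ∀ i : Fin a, cc _ (fun j => ((m j : ℕ) : ℤ)) ∉ Bad i := by
      intro i hi
      exact hmB i (mem_univ _) (by rw [mem_filter]; exact ⟨mem_univ _, hi⟩)
    have hmz : ∀ j, ((x j : ℕ) : ℤ) + ((y j : ℕ) : ℤ) = 2 * ((m j : ℕ) : ℤ) := by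
      intro j
      have := hm j
      omega
    set S : ℤ := ∑ j, (((m j : ℕ) : ℤ) - ((x j : ℕ) : ℤ)) ^ 2 with hS
    -- the top scale
    have htopS : 128 * S ≤ ((2 : ℤ) ^ w) ^ 2 := by
      have h1 : ∀ j, 4 * (((m j : ℕ) : ℤ) - ((x j : ℕ) : ℤ)) ^ 2 ≤
          ((2 : ℤ) ^ (w - (g + 3))) ^ 2 := by
        intro j
        have h2 := hc3' j
        have h3 := Nat.div_add_mod (x j : ℕ) (2 ^ (w - (g + 3)))
        have h4 := Nat.div_add_mod (y j : ℕ) (2 ^ (w - (g + 3)))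
        have h5 := Nat.mod_lt (x j : ℕ) (show 0 < 2 ^ (w - (g + 3)) by positivity)
        have h6 := Nat.mod_lt (y j : ℕ) (show 0 < 2 ^ (w - (g + 3)) by positivity)
        rw [h2] at h3
        have h7 := hmz j
        have h8 : (2 * (((m j : ℕ) : ℤ) - ((x j : ℕ) : ℤ))) ^ 2 ≤ ((2 : ℤ) ^ (w - (g + 3))) ^ 2 := by
          apply sq_le_sq'
          · have : ((x j : ℕ) : ℤ) - ((y j : ℕ) : ℤ) ≤ ((2 ^ (w - (g + 3)) : ℕ) : ℤ) := by omega
            push_cast at this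
            linarith
          · have : ((y j : ℕ) : ℤ) - ((x j : ℕ) : ℤ) ≤ ((2 ^ (w - (g + 3)) : ℕ) : ℤ) := by omega
            push_cast at this
            linarith
        rw [mul_pow] at h8
        linarith
      have h2 : 4 * S ≤ 4 ^ g * ((2 : ℤ) ^ (w - (g + 3))) ^ 2 := by
        rw [hS, mul_sum]
        calc ∑ j, 4 * (((m j : ℕ) : ℤ) - ((x j : ℕ) : ℤ)) ^ 2
            ≤ ∑ _j : Fin (4 ^ g), ((2 : ℤ) ^ (w - (g + 3))) ^ 2 := sum_le_sum fun j _ => h1 j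
          _ = _ := by rw [sum_const, card_univ, Fintype.card_fin, nsmul_eq_mul]; push_cast; rfl
      have h3 : 64 * (4 ^ g * ((2 : ℤ) ^ (w - (g + 3))) ^ 2) = ((2 : ℤ) ^ w) ^ 2 := by
        have e1 : (4 : ℤ) ^ g = (2 ^ g) ^ 2 := by rw [← pow_mul, mul_comm, pow_mul]; norm_num
        have e2 : (64 : ℤ) = (2 ^ 3) ^ 2 := by norm_num
        rw [e1, e2, ← mul_pow, ← mul_pow, ← pow_add, ← pow_add]
        congr 2
        omega
      have h4 : 0 ≤ S := sum_nonneg fun j _ => sq_nonneg _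
      have h5 : 0 ≤ ((2 : ℤ) ^ w) ^ 2 := sq_nonneg _
      linarith
    -- downward induction
    have key : ∀ k ≤ a, 128 * S ≤ ((2 : ℤ) ^ (2 * g + 6 + (a - k))) ^ 2 := by
      intro k
      induction k with
      | zero =>
        intro _
        rw [Nat.sub_zero, hw]
        exact htopS
      | succ k ih =>
        intro hk
        have ih' := ih (by omega)
        have hi : a - (k + 1) < a := by omega
        have e1 : a - k = a - (k + 1) + 1 := by omega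
        rw [e1, ← add_assoc] at ih'
        have h1 := hc ⟨a - (k + 1), hi⟩ (fun j => ((x j : ℕ) : ℤ)) (fun j => ((y j : ℕ) : ℤ))
          (fun j => ((m j : ℕ) : ℤ)) hmz (by push_cast; exact ih')
          (by
            have := congrFun hc1 ⟨a - (k + 1), hi⟩
            exact Fin.castLE_injective _ this) (hgood _)
        push_cast at h1
        have h2 : ((2 : ℤ) ^ (2 * g + 6 + (a - (k + 1)) + 1)) ^ 2 =
            4 * ((2 : ℤ) ^ (2 * g + 6 + (a - (k + 1)))) ^ 2 := by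
          rw [pow_succ]; ring
        rw [h2] at h1
        have h3 : 512 * S ≤ 4 * ((2 : ℤ) ^ (2 * g + 6 + (a - (k + 1)))) ^ 2 := h1
        linarith
    have h0 := key a le_rfl
    rw [Nat.sub_self, Nat.add_zero] at h0
    funext j
    apply Fin.ext
    have h1 : 128 * (((m j : ℕ) : ℤ) - ((x j : ℕ) : ℤ)) ^ 2 ≤ (((2 ^ (2 * g + 6) : ℕ)) : ℤ) ^ 2 := by
      have := single_le_sum (f := fun j => (((m j : ℕ) : ℤ) - ((x j : ℕ) : ℤ)) ^ 2)
        (fun i _ => sq_nonneg _) (mem_univ j)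
      push_cast
      linarith
    have h2 := small_t h1
    have h3 := hc2' j
    have h4 := hmz j
    have h5 := Nat.div_add_mod (x j : ℕ) (2 ^ (2 * g + 6))
    have h6 := Nat.div_add_mod (y j : ℕ) (2 ^ (2 * g + 6))
    have h7 : (((2 ^ (2 * g + 6) : ℕ)) : ℤ) ∣ ((x j : ℕ) : ℤ) - ((y j : ℕ) : ℤ) := by
      refine ⟨(((x j : ℕ) / 2 ^ (2 * g + 6) : ℕ) : ℤ) - (((y j : ℕ) / 2 ^ (2 * g + 6) : ℕ) : ℤ), ?_⟩
      rw [h3] at h5
      have h8 : (((2 ^ (2 * g + 6) * ((x j : ℕ) / 2 ^ (2 * g + 6)) +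
          (y j : ℕ) % 2 ^ (2 * g + 6) : ℕ)) : ℤ) = ((x j : ℕ) : ℤ) := by rw [h5]
      have h9 : (((2 ^ (2 * g + 6) * ((y j : ℕ) / 2 ^ (2 * g + 6)) +
          (y j : ℕ) % 2 ^ (2 * g + 6) : ℕ)) : ℤ) = ((y j : ℕ) : ℤ) := by rw [h6]
      rw [Nat.cast_add, Nat.cast_mul] at h8 h9
      linarith
    have h8 : ((x j : ℕ) : ℤ) - ((y j : ℕ) : ℤ) = 0 := by
      apply Int.eq_zero_of_abs_lt_dvd h7
      have e1 : ((x j : ℕ) : ℤ) - ((y j : ℕ) : ℤ) = -(2 * (((m j : ℕ) : ℤ) - ((x j : ℕ) : ℤ))) := by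
        linarith
      rw [e1, abs_neg, abs_mul]
      have e2 : |(2 : ℤ)| = 2 := rfl
      rw [e2]
      have := abs_nonneg (((m j : ℕ) : ℤ) - ((x j : ℕ) : ℤ))
      linarith
    omega

/-- digits and values -/
theorem exists_digits {d Q : ℕ} (x : ℕ) (hx : x < Q ^ d) :
    ∃ z : Fin d → Fin Q, ∑ j, (z j : ℕ) * Q ^ (j : ℕ) = x := by
  refine ⟨finFunctionFinEquiv.symm ⟨x, hx⟩, ?_⟩
  have h := finFunctionFinEquiv_apply (finFunctionFinEquiv.symm (⟨x, hx⟩ : Fin (Q ^ d)))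
  rw [Equiv.apply_symm_apply] at h
  exact h.symm

theorem colour_nat {d Q : ℕ} (hQ : 0 < Q) {κ : Type} (c : (Fin d → Fin Q) → κ)
    (B : Finset (Fin d → Fin Q))
    (h : ∀ x y, x ≠ y → c x = c y → ∃ m ∈ B, ∀ j, 2 * (m j : ℕ) = (x j : ℕ) + (y j : ℕ)) (N : ℕ) :
    ∃ (c' : ℕ → Fin (N / Q ^ d + 1) × κ) (T : Finset ℕ), T.card ≤ (N / Q ^ d + 1) * B.card ∧
      ∀ x ≤ N, ∀ y ≤ N, x ≠ y → c' x = c' y → x + y ∈ T := by
  classical
  have hn : 0 < Q ^ d := by positivity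
  have hdig : ∀ x : ℕ, ∃ z : Fin d → Fin Q, ∑ j, (z j : ℕ) * Q ^ (j : ℕ) = x % Q ^ d :=
    fun x => exists_digits _ (Nat.mod_lt _ hn)
  choose dg hdg using hdig
  refine ⟨fun x => (⟨min (x / Q ^ d) (N / Q ^ d), by omega⟩, c (dg x)),
    ((range (N / Q ^ d + 1)) ×ˢ B).image
      (fun p => 2 * (p.1 * Q ^ d + ∑ j : Fin d, (p.2 j : ℕ) * Q ^ (j : ℕ))), ?_, ?_⟩
  · refine card_image_le.trans (le_of_eq ?_)
    rw [card_product, card_range]
  · intro x hx y hy hne hc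
    simp only [Prod.mk.injEq, Fin.mk.injEq] at hc
    obtain ⟨h1, h2⟩ := hc
    have hx1 : x / Q ^ d ≤ N / Q ^ d := Nat.div_le_div_right hx
    have hy1 : y / Q ^ d ≤ N / Q ^ d := Nat.div_le_div_right hy
    rw [min_eq_left hx1, min_eq_left hy1] at h1
    have hxm := Nat.div_add_mod x (Q ^ d)
    have hym := Nat.div_add_mod y (Q ^ d)
    have hzne : dg x ≠ dg y := by
      intro h3
      apply hne
      rw [← hxm, ← hym, ← hdg x, ← hdg y, h3, h1]
    obtain ⟨m, hmB, hm⟩ := h _ _ hzne h2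
    rw [mem_image]
    refine ⟨(x / Q ^ d, m), ?_, ?_⟩
    · rw [mem_product, mem_range]
      exact ⟨by simp only; omega, hmB⟩
    · simp only
      have h3 : 2 * ∑ j, (m j : ℕ) * Q ^ (j : ℕ) = x % Q ^ d + y % Q ^ d := by
        rw [← hdg x, ← hdg y, mul_sum, ← sum_add_distrib]
        refine sum_congr rfl fun j _ => ?_
        rw [← mul_assoc, hm j, add_mul]
      rw [mul_add, h3]
      have h4 : 2 * (x / Q ^ d * Q ^ d) = Q ^ d * (x / Q ^ d) + Q ^ d * (y / Q ^ d) := by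
        rw [h1]; ring
      omega

end Pool.Agent.H208F
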