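import Pool.Agent.H208F.Ball

/-!
Numerical form of the one-level statement.
-/

set_option autoImplicit false

namespace Pool.Agent.H208F

open Finset

theorem two_pow_le_exp (n : ℕ) : (2 : ℝ) ^ n ≤ Real.exp n := by
  have h : (2 : ℝ) ≤ Real.exp 1 := by
    have := Real.add_one_le_exp (1 : ℝ)
    linarith
  calc (2 : ℝ) ^ n ≤ (Real.exp 1) ^ n := pow_le_pow_left₀ (by norm_num) h n
    _ = Real.exp n := by rw [← Real.exp_nat_mul, mul_one]

theorem exp_le_four_pow (n : ℕ) : Real.exp n ≤ (2 : ℝ) ^ (2 * n) := by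
  have h : Real.exp 1 ≤ 4 := by
    have := Real.exp_one_lt_d9
    linarith
  calc Real.exp n = (Real.exp 1) ^ n := by rw [← Real.exp_nat_mul, mul_one]
    _ ≤ (4 : ℝ) ^ n := pow_le_pow_left₀ (Real.exp_pos _).le h n
    _ = (2 : ℝ) ^ (2 * n) := by rw [pow_mul]; norm_num

theorem g_lt (g : ℕ) (hg : 5 ≤ g) : 2 * g ≤ 2 ^ g := by
  induction g, hg using Nat.le_induction with
  | base => norm_num
  | succ n hn ih => rw [pow_succ]; omega

/-- the estimates for the balls -/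
theorem ball_num {g M : ℕ} (hg : 5 ≤ g) (hM : 64 * 4 ^ g ≤ M) (W : ℕ) (hW : M = 16 * W)
    [NeZero M] : ∃ r ρ l : ℝ, (M : ℝ) ^ 2 / 32 ≤ l ^ 2 ∧ r ^ 2 - ρ ^ 2 ≤ (M : ℝ) ^ 2 / 512 ∧
      (XX M (4 ^ g) r).Nonempty ∧
      ((YY M (4 ^ g) ρ).card : ℝ) ≤ 2 * Real.exp (-(2 * (g : ℝ) ^ 2)) * (XX M (4 ^ g) r).card ∧
      ((ZZ M (4 ^ g) r l).card : ℝ) ≤ 2 * Real.exp (32 * g * 2 ^ g) * (XX M (4 ^ g) r).card := by
  obtain ⟨q, hq⟩ : ∃ q : ℝ, q = 2 ^ g := ⟨_, rfl⟩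
  obtain ⟨d, hd⟩ : ∃ d : ℕ, d = 4 ^ g := ⟨_, rfl⟩
  have hg5 : (5 : ℝ) ≤ g := by exact_mod_cast hg
  have h2g : 2 * (g : ℝ) ≤ q := by rw [hq]; exact_mod_cast g_lt g hg
  have hdq : (d : ℝ) = q ^ 2 := by
    rw [hd, hq, ← pow_mul, mul_comm g 2, pow_mul]
    norm_num
  have hq10 : 10 ≤ q := by linarith
  have hMq : 64 * q ^ 2 ≤ M := by
    rw [← hdq, hd]
    exact_mod_cast hM
  obtain ⟨Mr, hMr⟩ : ∃ Mr : ℝ, Mr = M := ⟨_, rfl⟩
  rw [← hMr] at hMq
  have hM0 : 0 < Mr := by nlinarith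
  obtain ⟨r, hr⟩ : ∃ r : ℝ, r = Mr * q / (64 * g) := ⟨_, rfl⟩
  obtain ⟨δ, hδ⟩ : ∃ δ : ℝ, δ = g * Mr / (16 * q) := ⟨_, rfl⟩
  have hg0 : (0 : ℝ) < g := by linarith
  have hq0 : (0 : ℝ) < q := by linarith
  have hr0 : 0 < r := by rw [hr]; positivity
  have hδ0 : 0 < δ := by rw [hδ]; positivity
  have hrδ : r * δ = Mr ^ 2 / 1024 := by
    rw [hr, hδ]; field_simp; ring
  have hδr : δ / r = 4 * g ^ 2 / q ^ 2 := by
    rw [hr, hδ]; field_simp; ring
  have hδler : δ ≤ r := by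
    rw [← div_le_one hr0, hδr, div_le_one (by positivity)]
    nlinarith
  have hδ4 : 4 * q ≤ δ := by
    rw [hδ, le_div_iff₀ (by positivity)]
    nlinarith
  have hr2q : 2 * q ≤ r := by
    rw [hr, le_div_iff₀ (by positivity)]
    nlinarith
  have hl2 : Mr / 5 + 2 * q ≤ Mr / 4 := by nlinarith
  have hs : (d : ℝ) ≤ q ^ 2 := hdq.le
  have hrq : q < r := by linarith
  have hrq0 : 0 < r - q := by linarith
  -- lower ball
  have hY : ((IB d (r - δ)).card : ℝ) ≤ Real.exp (-(2 * (g : ℝ) ^ 2)) * (IB d r).card := by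
    have h1 := IB_ratio (d := d) (r1 := r - δ) (r2 := r) (s := q) (by linarith) hq0 hs hrq
    have h2 : (r - δ + q) ≤ (r - q) * Real.exp (-(δ / (2 * r))) := by
      have h3 := Real.add_one_le_exp (-(δ / (2 * r)))
      have h4 : (r - q) * (-(δ / (2 * r)) + 1) ≤ (r - q) * Real.exp (-(δ / (2 * r))) :=
        mul_le_mul_of_nonneg_left h3 hrq0.le
      refine le_trans ?_ h4
      have h5 : (r - q) * (δ / (2 * r)) ≤ δ / 2 := by
        have : r * (δ / (2 * r)) = δ / 2 := by field_simp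
        have h6 : 0 ≤ δ / (2 * r) := by positivity
        nlinarith
      nlinarith
    have h3 : (r - δ + q) ^ d ≤ (r - q) ^ d * Real.exp (-(2 * (g : ℝ) ^ 2)) := by
      calc (r - δ + q) ^ d ≤ ((r - q) * Real.exp (-(δ / (2 * r)))) ^ d :=
            pow_le_pow_left₀ (by linarith) h2 d
        _ = (r - q) ^ d * Real.exp (-(2 * (g : ℝ) ^ 2)) := by
            rw [mul_pow, ← Real.exp_nat_mul]
            congr 2
            rw [hdq]
            have : δ / (2 * r) = (δ / r) / 2 := by field_simp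
            rw [this, hδr]
            field_simp
            ring
    have h4 : ((IB d (r - δ)).card : ℝ) * (r - q) ^ d ≤
        (Real.exp (-(2 * (g : ℝ) ^ 2)) * (IB d r).card) * (r - q) ^ d := by
      refine h1.trans ?_
      calc (r - δ + q) ^ d * ((IB d r).card : ℝ)
          ≤ ((r - q) ^ d * Real.exp (-(2 * (g : ℝ) ^ 2))) * (IB d r).card := by gcongr
        _ = _ := by ring
    exact le_of_mul_le_mul_right h4 (by positivity)
  -- upper ball
  have hZ : ((IB d (r + Mr / 5)).card : ℝ) ≤ Real.exp (32 * g * q) * (IB d r).card := by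
    have h1 := IB_ratio (d := d) (r1 := r + Mr / 5) (r2 := r) (s := q) (by positivity) hq0 hs hrq
    have h2 : (r + Mr / 5 + q) ≤ (r - q) * Real.exp (32 * g / q) := by
      have h3 := Real.add_one_le_exp (32 * g / q)
      have h4 : (r - q) * (32 * g / q + 1) ≤ (r - q) * Real.exp (32 * g / q) :=
        mul_le_mul_of_nonneg_left h3 hrq0.le
      refine le_trans ?_ h4
      have h5 : Mr / 4 ≤ (r - q) * (32 * g / q) := by
        have h6 : r / 2 * (32 * g / q) = Mr / 4 := by rw [hr]; field_simp; ring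
        have h7 : r / 2 ≤ r - q := by linarith
        have h8 : 0 ≤ 32 * g / q := by positivity
        nlinarith
      linarith
    have h3 : (r + Mr / 5 + q) ^ d ≤ (r - q) ^ d * Real.exp (32 * g * q) := by
      calc (r + Mr / 5 + q) ^ d ≤ ((r - q) * Real.exp (32 * g / q)) ^ d :=
            pow_le_pow_left₀ (by positivity) h2 d
        _ = (r - q) ^ d * Real.exp (32 * g * q) := by
            rw [mul_pow, ← Real.exp_nat_mul]
            congr 2
            rw [hdq]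
            field_simp
    have h4 : ((IB d (r + Mr / 5)).card : ℝ) * (r - q) ^ d ≤
        (Real.exp (32 * g * q) * (IB d r).card) * (r - q) ^ d := by
      refine h1.trans ?_
      calc (r + Mr / 5 + q) ^ d * ((IB d r).card : ℝ)
          ≤ ((r - q) ^ d * Real.exp (32 * g * q)) * (IB d r).card := by gcongr
        _ = _ := by ring
    exact le_of_mul_le_mul_right h4 (by positivity)
  have hsq : r ^ 2 - (r - δ) ^ 2 ≤ Mr ^ 2 / 512 := by nlinarith [sq_nonneg δ]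
  have hN1 : (1 : ℝ) ≤ (IB d r).card := by
    have : 0 < (IB d r).card := by
      apply card_pos.mpr
      refine ⟨fun _ => 0, ?_⟩
      rw [mem_IB hr0.le]
      simp [sq_nonneg]
    exact_mod_cast this
  have hWr : (W : ℝ) = Mr / 16 := by rw [hMr, hW]; push_cast; ring
  have hW0 : 0 < W := by
    rcases Nat.eq_zero_or_pos W with h | h
    · rw [h] at hWr
      push_cast at hWr
      linarith
    · exact h
  have hexp : 2 * q ^ 3 * Real.exp (-(2 * (g : ℝ) ^ 2)) ≤ 1 := by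
    have h1 : (2 : ℝ) ^ (2 * g ^ 2) ≤ Real.exp (2 * (g : ℝ) ^ 2) := by
      have := two_pow_le_exp (2 * g ^ 2)
      push_cast at this
      exact this
    have h2 : 2 * q ^ 3 ≤ (2 : ℝ) ^ (2 * g ^ 2) := by
      rw [hq, ← pow_mul, ← pow_succ']
      apply pow_le_pow_right₀ (by norm_num)
      nlinarith
    rw [Real.exp_neg, ← div_eq_mul_inv, div_le_one (Real.exp_pos _)]
    exact h2.trans h1
  have hsmall : 2 * d * ((IB d (r - δ)).card * (2 * r + 3)) ≤ (IB d r).card * (W : ℝ) := by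
    have h1 : 2 * r + 3 ≤ Mr * q / 16 := by
      have h2 : r ≤ Mr * q / 320 := by
        rw [hr]
        apply div_le_div_of_nonneg_left (by positivity) (by norm_num)
        linarith
      nlinarith
    calc 2 * d * ((IB d (r - δ)).card * (2 * r + 3))
        ≤ 2 * q ^ 2 * ((Real.exp (-(2 * (g : ℝ) ^ 2)) * (IB d r).card) * (Mr * q / 16)) := by
          rw [hdq]
          gcongr
      _ = (2 * q ^ 3 * Real.exp (-(2 * (g : ℝ) ^ 2))) * ((IB d r).card * (Mr / 16)) := by ring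
      _ ≤ 1 * ((IB d r).card * (Mr / 16)) := by gcongr
      _ = (IB d r).card * (W : ℝ) := by rw [hWr]; ring
  have hhalf := XX_half (M := M) (d := d) (r := r) (ρ := r - δ) W hW0 (by omega) hr0.le
    (by linarith) (by rw [← hMr]; nlinarith [sq_nonneg Mr]) hsmall
  subst hd
  refine ⟨r, r - δ, Mr / 5, ?_, ?_, ?_, ?_, ?_⟩
  · rw [← hMr]; nlinarith [sq_nonneg Mr]
  · rw [← hMr]; exact hsq
  · rw [← card_pos]
    have : (0 : ℝ) < (XX M (4 ^ g) r).card := by linarith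
    exact_mod_cast this
  · have h1 : ((YY M (4 ^ g) (r - δ)).card : ℝ) ≤ (IB (4 ^ g) (r - δ)).card := by
      exact_mod_cast YY_card (by linarith)
    calc ((YY M (4 ^ g) (r - δ)).card : ℝ) ≤ (IB (4 ^ g) (r - δ)).card := h1
      _ ≤ Real.exp (-(2 * (g : ℝ) ^ 2)) * (IB (4 ^ g) r).card := hY
      _ ≤ Real.exp (-(2 * (g : ℝ) ^ 2)) * (2 * (XX M (4 ^ g) r).card) := by gcongr
      _ = _ := by ring
  · have h1 : ((ZZ M (4 ^ g) r (Mr / 5)).card : ℝ) ≤ (IB (4 ^ g) (r + Mr / 5)).card := by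
      exact_mod_cast ZZ_card hr0.le (by positivity)
    calc ((ZZ M (4 ^ g) r (Mr / 5)).card : ℝ) ≤ (IB (4 ^ g) (r + Mr / 5)).card := h1
      _ ≤ Real.exp (32 * g * q) * (IB (4 ^ g) r).card := hZ
      _ ≤ Real.exp (32 * g * q) * (2 * (XX M (4 ^ g) r).card) := by gcongr
      _ = _ := by rw [hq]; ring

/-- one level, with numbers -/
theorem level_num {g M k : ℕ} (hg : 5 ≤ g) (hM : 64 * 4 ^ g ≤ M) (W : ℕ) (hW : M = 16 * W)
    [NeZero M] (hk : M ^ (4 ^ g) < 2 ^ k) :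
    ∃ (V : ℕ) (c : (Fin (4 ^ g) → ZMod M) → Fin V) (Bad : Finset (Fin (4 ^ g) → ZMod M)),
      V ≤ 2 ^ (64 * g * 2 ^ g + 4) * k ∧
      Bad.card * 2 ^ (2 * g ^ 2) ≤ 16 * k * M ^ (4 ^ g) ∧
      ∀ x y m : Fin (4 ^ g) → ℤ, (∀ j, x j + y j = 2 * m j) →
        128 * ∑ j, (m j - x j) ^ 2 ≤ (M : ℤ) ^ 2 → c (cc M x) = c (cc M y) → cc M m ∉ Bad →
        512 * ∑ j, (m j - x j) ^ 2 ≤ (M : ℤ) ^ 2 := by
  obtain ⟨r, ρ, l, h1, h2, h3, h4, h5⟩ := ball_num hg hM W hW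
  obtain ⟨V, c, Bad, hV, hBad, hc⟩ := level (ρ := ρ) h3 h1 k hk
  have hXp : 0 < (XX M (4 ^ g) r).card := card_pos.mpr h3
  have hXr : (0 : ℝ) < (XX M (4 ^ g) r).card := by exact_mod_cast hXp
  refine ⟨V, c, Bad, ?_, ?_, ?_⟩
  · rw [hV]
    apply Nat.mul_le_mul_right
    have h6 : ((4 * (ZZ M (4 ^ g) r l).card / (XX M (4 ^ g) r).card : ℕ) : ℝ) ≤
        8 * Real.exp (32 * g * 2 ^ g) := by
      refine Nat.cast_div_le.trans ?_
      rw [div_le_iff₀ hXr]
      push_cast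
      linarith
    have h7 : Real.exp (32 * g * 2 ^ g) ≤ (2 : ℝ) ^ (2 * (32 * g * 2 ^ g)) := by
      have := exp_le_four_pow (32 * g * 2 ^ g)
      push_cast at this
      exact this
    have h8 : (1 : ℝ) ≤ (2 : ℝ) ^ (2 * (32 * g * 2 ^ g)) := one_le_pow₀ (by norm_num)
    have h9 : ((4 * (ZZ M (4 ^ g) r l).card / (XX M (4 ^ g) r).card + 1 : ℕ) : ℝ) ≤
        ((2 ^ (64 * g * 2 ^ g + 4) : ℕ) : ℝ) := by
      push_cast
      have e1 : 64 * g * 2 ^ g + 4 = 2 * (32 * g * 2 ^ g) + 4 := by ring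
      rw [e1, pow_add]
      push_cast at h6
      linarith
    exact_mod_cast h9
  · have h6 : (Bad.card : ℝ) * (XX M (4 ^ g) r).card ≤
        8 * k * (M : ℝ) ^ (4 ^ g) * (YY M (4 ^ g) ρ).card := by exact_mod_cast hBad
    have h7 : (2 : ℝ) ^ (2 * g ^ 2) ≤ Real.exp (2 * (g : ℝ) ^ 2) := by
      have := two_pow_le_exp (2 * g ^ 2)
      push_cast at this
      exact this
    have h8 : Real.exp (-(2 * (g : ℝ) ^ 2)) * (2 : ℝ) ^ (2 * g ^ 2) ≤ 1 := by
      rw [Real.exp_neg, inv_mul_le_iff₀ (Real.exp_pos _), mul_one]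
      exact h7
    have h9 : ((Bad.card : ℝ) * 2 ^ (2 * g ^ 2)) * (XX M (4 ^ g) r).card ≤
        (16 * k * (M : ℝ) ^ (4 ^ g)) * (XX M (4 ^ g) r).card := by
      calc ((Bad.card : ℝ) * 2 ^ (2 * g ^ 2)) * (XX M (4 ^ g) r).card
          = (Bad.card * (XX M (4 ^ g) r).card) * 2 ^ (2 * g ^ 2) := by ring
        _ ≤ (8 * k * (M : ℝ) ^ (4 ^ g) * (YY M (4 ^ g) ρ).card) * 2 ^ (2 * g ^ 2) := by gcongr
        _ ≤ (8 * k * (M : ℝ) ^ (4 ^ g) *
            (2 * Real.exp (-(2 * (g : ℝ) ^ 2)) * (XX M (4 ^ g) r).card)) * 2 ^ (2 * g ^ 2) := by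
            gcongr
        _ = (16 * k * (M : ℝ) ^ (4 ^ g) * (XX M (4 ^ g) r).card) *
            (Real.exp (-(2 * (g : ℝ) ^ 2)) * 2 ^ (2 * g ^ 2)) := by ring
        _ ≤ (16 * k * (M : ℝ) ^ (4 ^ g) * (XX M (4 ^ g) r).card) * 1 := by gcongr
        _ = _ := by ring
    have h10 := le_of_mul_le_mul_right h9 hXr
    exact_mod_cast h10
  · intro x y m hm ht hcol hbad
    have h6 := (hc x y m hm ht hcol hbad).trans h2
    have h7 : (512 : ℝ) * ∑ j, (((m j - x j : ℤ)) : ℝ) ^ 2 ≤ (M : ℝ) ^ 2 := by linarith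
    exact_mod_cast h7

end Pool.Agent.H208F
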