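import Pool.Agent.H208F.Main

/-!
The choice of the parameters.
-/

set_option autoImplicit false

namespace Pool.Agent.H208F

open Finset

theorem g_lt' (g : ℕ) (hg : 5 ≤ g) : 2 * g + 6 ≤ 2 ^ g := by
  induction g, hg using Nat.le_induction with
  | base => norm_num
  | succ n hn ih => rw [pow_succ]; omega

theorem main_nat {N L g : ℕ} (hg : 5 ≤ g) (hL1 : 8 ^ g ≤ L) (hL2 : L < 8 ^ (g + 1))
    (hN1 : 2 ^ L ≤ N) (hN2 : N < 2 ^ (L + 1)) :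
    ∃ (κ : Type) (_ : Fintype κ) (c : ℕ → κ) (T : Finset ℕ),
      Fintype.card κ ≤ 2 ^ (600 * g * 4 ^ g) ∧ (T.card : ℝ) < (N : ℝ) / 10 ∧
      ∀ x ≤ N, ∀ y ≤ N, x ≠ y → c x = c y → x + y ∈ T := by
  classical
  have h8 : 8 ^ g = 2 ^ g * 4 ^ g := by rw [← mul_pow]; norm_num
  have h4pos : 0 < 4 ^ g := by positivity
  obtain ⟨w, hw⟩ : ∃ w, w = L / 4 ^ g := ⟨_, rfl⟩
  have hwd : w * 4 ^ g ≤ L := by rw [hw]; exact Nat.div_mul_le_self _ _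
  have hwd' : L < (w + 1) * 4 ^ g := by
    rw [hw]
    exact Nat.lt_mul_of_div_lt (Nat.lt_succ_self _) h4pos
  have hqw : 2 ^ g ≤ w := by
    rw [hw, Nat.le_div_iff_mul_le h4pos, ← h8]
    exact hL1
  have hw2 : w < 8 * 2 ^ g := by
    rw [hw, Nat.div_lt_iff_lt_mul h4pos]
    calc L < 8 ^ (g + 1) := hL2
      _ = 8 * 2 ^ g * 4 ^ g := by rw [pow_succ, h8]; ring
  have hg' := g_lt' g hg
  obtain ⟨a, ha⟩ : ∃ a, 2 * g + 6 + a = w := ⟨w - (2 * g + 6), by omega⟩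
  have ha2 : a ≤ 8 * 2 ^ g := by omega
  obtain ⟨c0, B, hB, hc0⟩ := colour_digits hg ha
  obtain ⟨c, T, hT, hc⟩ := colour_nat (by positivity) c0 B hc0 N
  have hn : (2 ^ w) ^ 4 ^ g = 2 ^ (w * 4 ^ g) := by rw [← pow_mul]
  have hnN : (2 ^ w) ^ 4 ^ g ≤ N := by
    rw [hn]
    exact (Nat.pow_le_pow_right (by norm_num) hwd).trans hN1
  have hNn : N / (2 ^ w) ^ 4 ^ g + 1 ≤ 2 ^ 4 ^ g := by
    have : N / (2 ^ w) ^ 4 ^ g < 2 ^ 4 ^ g := by
      rw [Nat.div_lt_iff_lt_mul (by positivity), hn, ← pow_add]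
      refine lt_of_lt_of_le hN2 (Nat.pow_le_pow_right (by norm_num) ?_)
      have : (w + 1) * 4 ^ g = 4 ^ g + w * 4 ^ g := by ring
      omega
    exact this
  have hk : w * 4 ^ g + 1 ≤ 2 ^ (3 * g + 4) := by
    have h1 : w * 4 ^ g ≤ 8 * 2 ^ g * 4 ^ g := Nat.mul_le_mul_right _ hw2.le
    have h2 : 8 * 2 ^ g * 4 ^ g = 8 * 8 ^ g := by rw [h8]; ring
    have h3 : 2 ^ (3 * g + 4) = 16 * 8 ^ g := by
      rw [pow_add, pow_mul]; norm_num; ring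
    have h4 : 1 ≤ 8 ^ g := Nat.one_le_pow _ _ (by norm_num)
    omega
  refine ⟨_, inferInstance, c, T, ?_, ?_, hc⟩
  · simp only [Fintype.card_prod, Fintype.card_fin, Fintype.card_fun]
    have b2 : (2 ^ (64 * g * 2 ^ g + 4) * (w * 4 ^ g + 1)) ^ a ≤
        2 ^ ((536 * g + 64) * 4 ^ g) := by
      calc (2 ^ (64 * g * 2 ^ g + 4) * (w * 4 ^ g + 1)) ^ a
          ≤ (2 ^ (64 * g * 2 ^ g + 4) * 2 ^ (3 * g + 4)) ^ a :=
            Nat.pow_le_pow_left (Nat.mul_le_mul_left _ hk) _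
        _ = 2 ^ ((64 * g * 2 ^ g + (3 * g + 8)) * a) := by
            rw [← pow_add, ← pow_mul]; congr 1; ring
        _ ≤ 2 ^ ((536 * g + 64) * 4 ^ g) := by
            apply Nat.pow_le_pow_right (by norm_num)
            have h1 : 1 ≤ 2 ^ g := Nat.one_le_pow _ _ (by norm_num)
            have h2 : 3 * g + 8 ≤ (3 * g + 8) * 2 ^ g := Nat.le_mul_of_pos_right _ h1
            calc (64 * g * 2 ^ g + (3 * g + 8)) * a
                ≤ (64 * g * 2 ^ g + (3 * g + 8) * 2 ^ g) * (8 * 2 ^ g) :=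
                  Nat.mul_le_mul (by omega) ha2
              _ = (536 * g + 64) * (2 ^ g * 2 ^ g) := by ring
              _ = (536 * g + 64) * 4 ^ g := by rw [← mul_pow]; norm_num
    have b3 : (2 ^ (2 * g + 6)) ^ 4 ^ g = 2 ^ ((2 * g + 6) * 4 ^ g) := by rw [← pow_mul]
    have b4 : (2 ^ (g + 3)) ^ 4 ^ g = 2 ^ ((g + 3) * 4 ^ g) := by rw [← pow_mul]
    calc (N / (2 ^ w) ^ 4 ^ g + 1) * ((2 ^ (64 * g * 2 ^ g + 4) * (w * 4 ^ g + 1)) ^ a *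
          ((2 ^ (2 * g + 6)) ^ 4 ^ g * (2 ^ (g + 3)) ^ 4 ^ g))
        ≤ 2 ^ 4 ^ g * (2 ^ ((536 * g + 64) * 4 ^ g) *
          (2 ^ ((2 * g + 6) * 4 ^ g) * 2 ^ ((g + 3) * 4 ^ g))) := by
          rw [b3, b4]
          exact Nat.mul_le_mul hNn (Nat.mul_le_mul_right _ b2)
      _ = 2 ^ (4 ^ g + ((536 * g + 64) * 4 ^ g + ((2 * g + 6) * 4 ^ g + (g + 3) * 4 ^ g))) := by
          rw [← pow_add, ← pow_add, ← pow_add]
      _ ≤ 2 ^ (600 * g * 4 ^ g) := by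
          apply Nat.pow_le_pow_right (by norm_num)
          have : 4 ^ g + ((536 * g + 64) * 4 ^ g + ((2 * g + 6) * 4 ^ g + (g + 3) * 4 ^ g)) =
              (539 * g + 74) * 4 ^ g := by ring
          rw [this]
          apply Nat.mul_le_mul_right
          omega
  · have h1 : T.card * 2 ^ (2 * g ^ 2) ≤ N * 2 ^ (4 * g + 12) := by
      have hdivN : (N / (2 ^ w) ^ 4 ^ g + 1) * (2 ^ w) ^ 4 ^ g ≤ 2 * N := by
        have := Nat.div_mul_le_self N ((2 ^ w) ^ 4 ^ g)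
        calc (N / (2 ^ w) ^ 4 ^ g + 1) * (2 ^ w) ^ 4 ^ g
            = N / (2 ^ w) ^ 4 ^ g * (2 ^ w) ^ 4 ^ g + (2 ^ w) ^ 4 ^ g := by ring
          _ ≤ N + N := by omega
          _ = 2 * N := by ring
      calc T.card * 2 ^ (2 * g ^ 2)
          ≤ ((N / (2 ^ w) ^ 4 ^ g + 1) * B.card) * 2 ^ (2 * g ^ 2) := Nat.mul_le_mul_right _ hT
        _ = (N / (2 ^ w) ^ 4 ^ g + 1) * (B.card * 2 ^ (2 * g ^ 2)) := by ring
        _ ≤ (N / (2 ^ w) ^ 4 ^ g + 1) * (a * (16 * (w * 4 ^ g + 1) * (2 ^ w) ^ (4 ^ g))) :=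
            Nat.mul_le_mul_left _ hB
        _ = ((N / (2 ^ w) ^ 4 ^ g + 1) * (2 ^ w) ^ 4 ^ g) * (a * (16 * (w * 4 ^ g + 1))) := by ring
        _ ≤ (2 * N) * ((8 * 2 ^ g) * (16 * 2 ^ (3 * g + 4))) :=
            Nat.mul_le_mul hdivN (Nat.mul_le_mul ha2 (Nat.mul_le_mul_left _ hk))
        _ = N * 2 ^ (4 * g + 12) := by
            have : 2 ^ (4 * g + 12) = 2 ^ g * 2 ^ (3 * g + 4) * 2 ^ 8 := by
              rw [← pow_add, ← pow_add]; congr 1; ring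
            rw [this]; ring
    have hNpos : 0 < N := lt_of_lt_of_le (by positivity) hN1
    have h2 : 16 * 2 ^ (4 * g + 12) ≤ 2 ^ (2 * g ^ 2) := by
      have : 16 * 2 ^ (4 * g + 12) = 2 ^ (4 * g + 16) := by
        rw [show 4 * g + 16 = 4 + (4 * g + 12) by ring, pow_add 2 4]; norm_num
      rw [this]
      apply Nat.pow_le_pow_right (by norm_num)
      nlinarith
    have h3 : (T.card : ℝ) * 2 ^ (2 * g ^ 2) ≤ N * 2 ^ (4 * g + 12) := by exact_mod_cast h1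
    have h4 : 16 * (2 : ℝ) ^ (4 * g + 12) ≤ 2 ^ (2 * g ^ 2) := by exact_mod_cast h2
    have hNr : (0 : ℝ) < N := by exact_mod_cast hNpos
    have h5 : (0 : ℝ) < 2 ^ (4 * g + 12) := by positivity
    have h6 : (0 : ℝ) ≤ T.card := Nat.cast_nonneg _
    have h7 : ((T.card : ℝ) * 16) * 2 ^ (4 * g + 12) ≤ N * 2 ^ (4 * g + 12) := by
      calc ((T.card : ℝ) * 16) * 2 ^ (4 * g + 12) = T.card * (16 * 2 ^ (4 * g + 12)) := by ring
        _ ≤ T.card * 2 ^ (2 * g ^ 2) := mul_le_mul_of_nonneg_left h4 h6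
        _ ≤ _ := h3
    have h8 := le_of_mul_le_mul_right h7 h5
    linarith

end Pool.Agent.H208F
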